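import Pool.Agent.Lib.MP_efec9b_co.Q.Defs43

/-! MP_efec9b_co: the closing estimate (row CL). -/

namespace Pool.Agent.Lib.MP_efec9b_co.Q.CL29

open Finset

theorem c_lo : (0.3678794 : ℝ) < c := by
  unfold c
  rw [Real.exp_neg, lt_inv_comm₀ (by norm_num) (Real.exp_pos 1)]
  exact Real.exp_one_lt_d9.trans (by norm_num)

theorem c_hi : c < (0.3678795 : ℝ) := by
  unfold c
  rw [Real.exp_neg, inv_lt_comm₀ (Real.exp_pos 1) (by norm_num)]
  exact lt_trans (by norm_num) Real.exp_one_gt_d9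

theorem sq_le (a : ℕ → ℝ) (m : ℕ) :
    (∑ j ∈ range m, a j) ^ 2 ≤ 2 * ∑ j ∈ range m, a j * ∑ k ∈ Ico j m, a k := by
  induction m with
  | zero => simp
  | succ m ih =>
    have h1 : ∑ j ∈ range m, a j * ∑ k ∈ Ico j (m + 1), a k =
        ∑ j ∈ range m, a j * ∑ k ∈ Ico j m, a k + (∑ j ∈ range m, a j) * a m := by
      rw [sum_mul, ← sum_add_distrib]
      refine sum_congr rfl fun j hj => ?_
      rw [sum_Ico_succ_top (mem_range.1 hj).le]
      ring
    have h2 : ∑ k ∈ Ico m (m + 1), a k = a m := by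
      rw [sum_Ico_succ_top le_rfl]
      simp
    rw [sum_range_succ, sum_range_succ (fun j => a j * ∑ k ∈ Ico j (m + 1), a k), h1, h2]
    nlinarith [sq_nonneg (a m)]

theorem tail1 {q : ℕ → ℝ} {L K : ℕ} {b : ℝ} (h : ∀ k < K, q k ≤ b) (hj : L ≤ K) :
    ∑ k ∈ Ico L K, q k ≤ b * ((K : ℝ) - L) := by
  have h1 := sum_le_card_nsmul (Ico L K) q b fun k hk => h k (mem_Ico.1 hk).2
  rw [Nat.card_Ico, nsmul_eq_mul, Nat.cast_sub hj] at h1
  linarith

theorem cl29 : StCL := by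
  refine ⟨10, by norm_num, fun n q hn h0 h1 h2 => ?_⟩
  have hlo := c_lo
  have hhi := c_hi
  have hn1 : (1 : ℝ) ≤ n := by exact_mod_cast hn
  have hcn0 : 0 ≤ c * (n : ℝ) := by nlinarith
  have hKlo : c * (n : ℝ) ≤ K n := Nat.le_ceil _
  have hKhi : (K n : ℝ) < c * n + 1 := Nat.ceil_lt_add_one hcn0
  have hKup : ∀ j < K n, (j : ℝ) < c * n := fun j hj => Nat.lt_ceil.1 hj
  have hx1 : 0.3678794 * (n : ℝ) ≤ c * n := mul_le_mul_of_nonneg_right hlo.le (by linarith)
  have hx2 : c * n ≤ 0.3678795 * (n : ℝ) := mul_le_mul_of_nonneg_right hhi.le (by linarith)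
  clear hlo hhi
  generalize K n = L at *
  generalize c * (n : ℝ) = x at *
  have hL0 : (0 : ℝ) < L := by linarith
  set T : ℕ → ℝ := fun j => ∑ k ∈ Ico j L, q k with hT
  have hT0 : ∀ j, 0 ≤ T j := fun j => sum_nonneg fun k _ => h0 k
  have hT1 : ∀ j < L, T j ≤ 0.476 * ((L : ℝ) - j) := fun j hj => tail1 h1 hj.le
  have hT2 : ∀ j < L, (j : ℝ) ≤ 0.28 * n →
      T j ≤ 0.476 * (L : ℝ) - 0.095 * (0.28 * n) - 0.381 * j := by
    intro j hj hj2
    set l : ℕ := ⌊0.28 * (n : ℝ)⌋₊ + 1 with hl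
    have hl1 : 0.28 * (n : ℝ) < l := by
      rw [hl]
      push_cast
      exact Nat.lt_floor_add_one _
    have hl2 : l ≤ L := by
      rw [hl, Nat.succ_le_iff, Nat.floor_lt (by positivity)]
      linarith
    have hl3 : j ≤ l := by
      have : (j : ℝ) ≤ l := by linarith
      exact_mod_cast this
    have h3 : T j = ∑ k ∈ Ico j l, q k + ∑ k ∈ Ico l L, q k :=
      (sum_Ico_consecutive q hl3 hl2).symm
    have h4 : ∑ k ∈ Ico l L, q k ≤ 0.476 * ((L : ℝ) - l) := tail1 h1 hl2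
    have h5 : ∑ k ∈ Ico j l, q k ≤ 0.381 * ((l : ℝ) - j) := by
      refine tail1 (fun k hk => h2 k (hk.trans_le hl2) ?_) hl3
      have h6 : k ≤ ⌊0.28 * (n : ℝ)⌋₊ := Nat.lt_succ_iff.1 hk
      have h7 : ((⌊0.28 * (n : ℝ)⌋₊ : ℕ) : ℝ) ≤ 0.28 * n := Nat.floor_le (by positivity)
      have h8 : (k : ℝ) ≤ ((⌊0.28 * (n : ℝ)⌋₊ : ℕ) : ℝ) := by exact_mod_cast h6
      linarith
    linarith
  set κ : ℝ := 1 / 2 + (5 * (L : ℝ) - n) / (4 * L) with hκ
  have hκ0 : 0 ≤ κ := by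
    have : 0 ≤ (5 * (L : ℝ) - n) / (4 * L) := div_nonneg (by linarith) (by linarith)
    rw [hκ]
    linarith
  have hκT : ∀ j < L, 2 * κ * T j ≤ 2.141 * T j + 0.66 := by
    intro j hj
    have h3 := hT1 j hj
    have hj0 : (0 : ℝ) ≤ j := Nat.cast_nonneg j
    have h4 : T j ≤ 0.476 * L := by linarith
    have h5 : κ = 1.75 - n / (4 * L) := by
      rw [hκ]
      field_simp
      ring
    have h6 : 0.6795 * T j - 0.33 ≤ n / (4 * L) * T j := by
      rw [div_mul_eq_mul_div, le_div_iff₀ (by linarith)]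
      nlinarith [hT0 j, mul_nonneg (hT0 j) (sub_nonneg.2 hx2), mul_nonneg (hT0 j) (sub_nonneg.2 hKhi.le)]
    rw [h5]
    linarith
  have key : ∀ j < L, (((n : ℝ) - L) / 2 - j) * q j ^ 2 + 2 * κ * (q j * T j) ≤
      2 * 0.6136 * (q j * (x - j)) + 2 * q j := by
    intro j hj
    have hj0 : (0 : ℝ) ≤ j := Nat.cast_nonneg j
    have hjx := hKup j hj
    have h3 := hκT j hj
    have hq := h1 j hj
    have hq0 := h0 j
    have h4 : (((n : ℝ) - L) / 2 - j) * q j + 2 * κ * T j ≤ 2 * 0.6136 * (x - j) + 2 := by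
      have h5 : (((n : ℝ) - L) / 2 - j) * q j ≤ (((n : ℝ) - x) / 2 - j) * q j :=
        mul_le_mul_of_nonneg_right (by linarith) hq0
      by_cases hc1 : (j : ℝ) ≤ 0.28 * n
      · have h6 := hT2 j hj hc1
        have h7 := h2 j hj hc1
        have h8 : (((n : ℝ) - x) / 2 - j) * q j ≤ (((n : ℝ) - x) / 2 - j) * 0.381 :=
          mul_le_mul_of_nonneg_left h7 (by linarith)
        linarith
      · rw [not_le] at hc1
        have h6 := hT1 j hj
        by_cases hc2 : (j : ℝ) ≤ ((n : ℝ) - x) / 2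
        · have h8 : (((n : ℝ) - x) / 2 - j) * q j ≤ (((n : ℝ) - x) / 2 - j) * 0.476 :=
            mul_le_mul_of_nonneg_left hq (by linarith)
          linarith
        · rw [not_le] at hc2
          have h8 : (((n : ℝ) - x) / 2 - j) * q j ≤ 0 :=
            mul_nonpos_of_nonpos_of_nonneg (by linarith) hq0
          linarith
    have h9 := mul_le_mul_of_nonneg_right h4 hq0
    nlinarith
  have hm := sq_le q L
  have hsum := sum_le_sum (s := range L) fun j hj => key j (mem_range.1 hj)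
  rw [sum_add_distrib, sum_add_distrib, ← mul_sum, ← mul_sum, ← mul_sum] at hsum
  have hqs : ∑ j ∈ range L, q j ≤ 0.476 * L := by
    have h3 := tail1 (L := 0) h1 (Nat.zero_le L)
    rw [← range_eq_Ico] at h3
    push_cast at h3
    linarith
  have h10 : κ * (∑ j ∈ range L, q j) ^ 2 ≤ 2 * κ * ∑ j ∈ range L, q j * T j := by
    have := mul_le_mul_of_nonneg_left hm hκ0
    linarith
  linarith

end Pool.Agent.Lib.MP_efec9b_co.Q.CL29
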