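import Mathlib

/-!
MP_efec9b_co, H = (0 0; 0 1): definitions and rows of the upper bound (uniform discrete form).
Columns are 0, ..., n-1; a law is a finite family of sets A i (subsets of range n) with weights w i.
-/

namespace Pool.Agent.Lib.MP_efec9b_co.Q

open Finset

noncomputable section

/-- c = 1/e -/
def c : ℝ := Real.exp (-1)

def rho (A : Finset ℕ) (j : ℕ) : ℕ := (A.filter (fun k => j < k)).card

def al (A : Finset ℕ) (j : ℕ) : ℕ := (A.filter (fun k => k < j)).card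

def DD (A B : Finset ℕ) (j : ℕ) : ℕ :=
  max ((A \ B).filter (fun k => j < k)).card ((B \ A).filter (fun k => j < k)).card

def S1 (A B : Finset ℕ) : ℕ := ∑ j ∈ A ∩ B, DD A B j

variable {ι : Type} [Fintype ι]

def J (w : ι → ℝ) (A : ι → Finset ℕ) : ℝ := ∑ i, ∑ i', w i * w i' * (S1 (A i) (A i') : ℝ)

def p (w : ι → ℝ) (A : ι → Finset ℕ) (j : ℕ) : ℝ := ∑ i, if j ∈ A i then w i else 0

def g (w : ι → ℝ) (A : ι → Finset ℕ) (j k : ℕ) : ℝ :=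
  ∑ i, if j ∈ A i ∧ k ∈ A i then w i else 0

def G (w : ι → ℝ) (A : ι → Finset ℕ) (j k : ℕ) : ℝ :=
  ∑ i, if j ∈ A i ∧ k ≤ j + rho (A i) j then w i else 0

/-- law on subsets of range n -/
structure IsLaw (n : ℕ) (w : ι → ℝ) (A : ι → Finset ℕ) : Prop where
  w0 : ∀ i, 0 ≤ w i
  w1 : ∑ i, w i = 1
  sub : ∀ i, A i ⊆ range n

def K (n : ℕ) : ℕ := ⌈c * (n : ℝ)⌉₊

def U (n k : ℕ) : ℝ := if k < K n then 1 else c * n / k

def W (n t : ℕ) : ℝ := ∑ k ∈ Ioo t n, U n k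

def Ss (n : ℕ) (A : Finset ℕ) : ℝ :=
  ∑ j ∈ A, (U n j * ((rho A j : ℝ) - (al A j : ℝ)) + W n (j + rho A j))

def cn (n : ℕ) : ℝ := 2 * ∑ j ∈ range n, ∑ k ∈ Ioo j n, U n k * (U n j - U n k)

def Quad (n : ℕ) (w : ι → ℝ) (A : ι → Finset ℕ) : ℝ :=
  ∑ j ∈ range n, ∑ k ∈ Ioo j n,
    ((p w A j - U n j) * (g w A j k - U n k) - (g w A j k - U n k) ^ 2
      + (p w A j - U n j) * (G w A j k - U n k) - (G w A j k - U n k) ^ 2)

/-! ### Rows -/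

/-- ID1: one column -/
def StID1 : Prop := ∀ (ι : Type) [Fintype ι] (n : ℕ) (w : ι → ℝ) (A : ι → Finset ℕ),
  IsLaw n w A → ∀ j < n,
    ∑ i, ∑ i', (if j ∈ A i ∧ j ∈ A i' then w i * w i' * (DD (A i) (A i') j : ℝ) else 0)
      = ∑ k ∈ Ioo j n, (p w A j * g w A j k - g w A j k ^ 2
          + p w A j * G w A j k - G w A j k ^ 2)

/-- ID: all columns -/
def StID : Prop := ∀ (ι : Type) [Fintype ι] (n : ℕ) (w : ι → ℝ) (A : ι → Finset ℕ),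
  IsLaw n w A →
    J w A = ∑ j ∈ range n, ∑ k ∈ Ioo j n, (p w A j * g w A j k - g w A j k ^ 2
          + p w A j * G w A j k - G w A j k ^ 2)

/-- LIN: expansion at U -/
def StLIN : Prop := ∀ (ι : Type) [Fintype ι] (n : ℕ) (w : ι → ℝ) (A : ι → Finset ℕ),
  IsLaw n w A →
    ∑ j ∈ range n, ∑ k ∈ Ioo j n, (p w A j * g w A j k - g w A j k ^ 2
          + p w A j * G w A j k - G w A j k ^ 2)
      = 2 * ∑ i, w i * Ss n (A i) - cn n + Quad n w A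

/-- SL: first order bound with slack -/
def StSL : Prop := ∃ C : ℝ, 0 ≤ C ∧ ∀ (n : ℕ) (A : Finset ℕ), A ⊆ range n →
  Ss n A ≤ c ^ 2 * (n : ℝ) ^ 2 - 0.6136 * ∑ y ∈ range (K n) \ A, (c * n - y) + C * n

/-- CN -/
def StCN : Prop := ∃ C : ℝ, 0 ≤ C ∧ ∀ n : ℕ, c ^ 2 * (n : ℝ) ^ 2 - C * n ≤ cn n

/-- QD: quadratic part -/
def StQD : Prop := ∀ (ι : Type) [Fintype ι] (n : ℕ) (w : ι → ℝ) (A : ι → Finset ℕ),
  0 < n → IsLaw n w A →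
    Quad n w A ≤ ∑ j ∈ range (K n), (((n : ℝ) - K n) / 2 - j) * (1 - p w A j) ^ 2
      + (1 / 2 + (5 * (K n : ℝ) - n) / (4 * K n)) * (∑ j ∈ range (K n), (1 - p w A j)) ^ 2

/-- CL: closing estimate -/
def StCL : Prop := ∃ C : ℝ, 0 ≤ C ∧ ∀ (n : ℕ) (q : ℕ → ℝ), 0 < n → (∀ j, 0 ≤ q j) →
  (∀ j < K n, q j ≤ 0.476) → (∀ j < K n, (j : ℝ) ≤ 0.28 * n → q j ≤ 0.381) →
    ∑ j ∈ range (K n), (((n : ℝ) - K n) / 2 - j) * q j ^ 2
      + (1 / 2 + (5 * (K n : ℝ) - n) / (4 * K n)) * (∑ j ∈ range (K n), q j) ^ 2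
      ≤ 2 * 0.6136 * ∑ j ∈ range (K n), q j * (c * n - j) + C * n

/-- COL: the column bound gives the pointwise bounds -/
def StCOL : Prop := ∀ (n j : ℕ) (x : ℝ), 0 < n → j < K n → 0 ≤ x → x ≤ 1 →
  2 * c ^ 2 * n < ((n : ℝ) - 1 - j) * x ^ 2 / 2 + 2 * j * x * (1 - x) →
    1 - x ≤ 0.476 ∧ ((j : ℝ) ≤ 0.28 * n → 1 - x ≤ 0.381)

/-- DEL: deleting the column j -/
def StDEL : Prop := ∀ (ι : Type) [Fintype ι] (n : ℕ) (w : ι → ℝ) (A : ι → Finset ℕ),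
  IsLaw (n + 1) w A → ∀ j < n + 1, ∃ A' : ι → Finset ℕ, IsLaw n w A' ∧
    J w A ≤ J w A' + ((n : ℝ) - j) * p w A j ^ 2 / 2 + 2 * j * p w A j * (1 - p w A j)

/-- UP: the final bound -/
def StUP : Prop := ∃ C : ℝ, 0 ≤ C ∧ ∀ (ι : Type) [Fintype ι] (n : ℕ) (w : ι → ℝ)
  (A : ι → Finset ℕ), IsLaw n w A → J w A ≤ c ^ 2 * (n : ℝ) ^ 2 + C * n

end

end Pool.Agent.Lib.MP_efec9b_co.Q
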