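import Mathlib
import Pool.Agent.Lib.MP_efec9b_co.Q.Defs43

/-!
MP_efec9b_co, row DEL of Defs43 (helper84).
-/

namespace Pool.Agent.Lib.MP_efec9b_co.Q

open Finset

namespace DEL84

def sh (j k : ℕ) : ℕ := if k < j then k else k - 1

theorem sh_inj {j a b : ℕ} (ha : a ≠ j) (hb : b ≠ j) (h : sh j a = sh j b) : a = b := by
  unfold sh at h; split_ifs at h <;> omega

theorem sh_lt {j a b : ℕ} (ha : a ≠ j) (hb : b ≠ j) : sh j a < sh j b ↔ a < b := by
  unfold sh; split_ifs <;> omega

def del (j : ℕ) (A : Finset ℕ) : Finset ℕ := (A.erase j).image (sh j)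

theorem mem_del {j i : ℕ} (hi : i ≠ j) (A : Finset ℕ) : sh j i ∈ del j A ↔ i ∈ A := by
  unfold del
  rw [mem_image]
  constructor
  · rintro ⟨k, hk, e⟩
    rw [mem_erase] at hk
    have := sh_inj hk.1 hi e
    rw [← this]; exact hk.2
  · intro h
    exact ⟨i, mem_erase.2 ⟨hi, h⟩, rfl⟩

theorem ex_sh {j x : ℕ} : ∃ i, i ≠ j ∧ sh j i = x := by
  by_cases h : x < j
  · exact ⟨x, by omega, by unfold sh; rw [if_pos h]⟩
  · exact ⟨x + 1, by omega, by unfold sh; rw [if_neg (by omega)]; omega⟩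

theorem del_sdiff (j : ℕ) (A B : Finset ℕ) : del j A \ del j B = del j (A \ B) := by
  ext x
  obtain ⟨i, hi, rfl⟩ := ex_sh (j := j) (x := x)
  rw [mem_sdiff, mem_del hi, mem_del hi, mem_del hi, mem_sdiff]

theorem del_inter (j : ℕ) (A B : Finset ℕ) : del j A ∩ del j B = del j (A ∩ B) := by
  ext x
  obtain ⟨i, hi, rfl⟩ := ex_sh (j := j) (x := x)
  rw [mem_inter, mem_del hi, mem_del hi, mem_del hi, mem_inter]

theorem card_del (j i : ℕ) (hi : i ≠ j) (X : Finset ℕ) :
    (X.filter (fun k => i < k)).card ≤ ((del j X).filter (fun k => sh j i < k)).card +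
      (if i < j ∧ j ∈ X then 1 else 0) := by
  have h1 : (del j X).filter (fun k => sh j i < k) =
      ((X.erase j).filter (fun k => i < k)).image (sh j) := by
    ext x
    obtain ⟨k, hk, rfl⟩ := ex_sh (j := j) (x := x)
    rw [mem_filter, mem_del hk, sh_lt hi hk, mem_image]
    constructor
    · rintro ⟨h1, h2⟩
      exact ⟨k, mem_filter.2 ⟨mem_erase.2 ⟨hk, h1⟩, h2⟩, rfl⟩
    · rintro ⟨l, hl, e⟩
      rw [mem_filter, mem_erase] at hl
      have := sh_inj hl.1.1 hk e
      rw [← this]; exact ⟨hl.1.2, hl.2⟩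
  have h2 : ((del j X).filter (fun k => sh j i < k)).card =
      ((X.erase j).filter (fun k => i < k)).card := by
    rw [h1]
    refine card_image_of_injOn ?_
    intro a ha b hb e
    have ha' := (mem_erase.1 (mem_filter.1 (mem_coe.1 ha)).1).1
    have hb' := (mem_erase.1 (mem_filter.1 (mem_coe.1 hb)).1).1
    exact sh_inj ha' hb' e
  rw [h2]
  by_cases h : i < j ∧ j ∈ X
  · rw [if_pos h]
    have : X.filter (fun k => i < k) ⊆ insert j ((X.erase j).filter (fun k => i < k)) := by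
      intro x hx
      rw [mem_filter] at hx
      by_cases hxj : x = j
      · rw [hxj]; exact mem_insert_self _ _
      · exact mem_insert_of_mem (mem_filter.2 ⟨mem_erase.2 ⟨hxj, hx.1⟩, hx.2⟩)
    exact (card_le_card this).trans (card_insert_le _ _)
  · rw [if_neg h, add_zero]
    refine card_le_card ?_
    intro x hx
    rw [mem_filter] at hx
    refine mem_filter.2 ⟨mem_erase.2 ⟨?_, hx.1⟩, hx.2⟩
    rintro rfl
    exact h ⟨hx.2, hx.1⟩

theorem DD_del (j i : ℕ) (hi : i ≠ j) (A B : Finset ℕ) :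
    DD A B i ≤ DD (del j A) (del j B) (sh j i) +
      (if i < j ∧ ¬ (j ∈ A ↔ j ∈ B) then 1 else 0) := by
  have h1 := card_del j i hi (A \ B)
  have h2 := card_del j i hi (B \ A)
  unfold DD
  rw [del_sdiff, del_sdiff]
  simp only [mem_sdiff] at h1 h2
  refine max_le ?_ ?_
  · refine h1.trans (add_le_add (le_max_left _ _) ?_)
    by_cases h : i < j ∧ j ∈ A ∧ j ∉ B
    · rw [if_pos h, if_pos ⟨h.1, by tauto⟩]
    · rw [if_neg h]; exact Nat.zero_le _
  · refine h2.trans (add_le_add (le_max_right _ _) ?_)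
    by_cases h : i < j ∧ j ∈ B ∧ j ∉ A
    · rw [if_pos h, if_pos ⟨h.1, by tauto⟩]
    · rw [if_neg h]; exact Nat.zero_le _

theorem S1_del (j : ℕ) (A B : Finset ℕ) :
    S1 A B ≤ S1 (del j A) (del j B) + (if j ∈ A ∧ j ∈ B then DD A B j else 0) +
      j * (if ¬ (j ∈ A ↔ j ∈ B) then 1 else 0) := by
  have h1 : S1 (del j A) (del j B) = ∑ i ∈ (A ∩ B).erase j, DD (del j A) (del j B) (sh j i) := by
    unfold S1
    rw [del_inter]
    conv_lhs => rw [del]
    rw [sum_image]
    intro a ha b hb e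
    exact sh_inj (mem_erase.1 (mem_coe.1 ha)).1 (mem_erase.1 (mem_coe.1 hb)).1 e
  have h2 : S1 A B ≤ ∑ i ∈ (A ∩ B).erase j, DD A B i +
      (if j ∈ A ∧ j ∈ B then DD A B j else 0) := by
    unfold S1
    by_cases h : j ∈ A ∧ j ∈ B
    · rw [if_pos h, sum_erase_add _ _ (mem_inter.2 h)]
    · rw [if_neg h, add_zero, erase_eq_of_notMem (by rw [mem_inter]; exact h)]
  have h3 : ∑ i ∈ (A ∩ B).erase j, DD A B i ≤
      ∑ i ∈ (A ∩ B).erase j, (DD (del j A) (del j B) (sh j i) +
        (if i < j ∧ ¬ (j ∈ A ↔ j ∈ B) then 1 else 0)) :=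
    sum_le_sum fun i hi => DD_del j i (mem_erase.1 hi).1 A B
  have h4 : ∑ i ∈ (A ∩ B).erase j, (if i < j ∧ ¬ (j ∈ A ↔ j ∈ B) then 1 else 0) ≤
      j * (if ¬ (j ∈ A ↔ j ∈ B) then 1 else 0) := by
    by_cases h : ¬ (j ∈ A ↔ j ∈ B)
    · rw [if_pos h, mul_one, ← sum_filter, sum_const, smul_eq_mul, mul_one]
      calc _ ≤ (range j).card := by
            refine card_le_card ?_
            intro x hx
            rw [mem_filter] at hx
            exact mem_range.2 hx.2.1
        _ = j := card_range j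
    · rw [if_neg h, mul_zero]
      refine le_of_eq (sum_eq_zero fun i _ => ?_)
      rw [if_neg]
      rintro ⟨_, h'⟩
      exact h h'
  rw [sum_add_distrib] at h3
  rw [h1]
  omega

end DEL84

open DEL84 in
theorem rowDEL84 (hID1 : StID1) : StDEL := by
  intro ι _ n w A hL j hj
  refine ⟨fun i => del j (A i), ⟨hL.w0, hL.w1, ?_⟩, ?_⟩
  · intro i x hx
    obtain ⟨k, hk, rfl⟩ := ex_sh (j := j) (x := x)
    rw [mem_del hk] at hx
    have := mem_range.1 (hL.sub i hx)
    rw [mem_range]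
    unfold sh; split_ifs <;> omega
  · have h1 : J w A ≤ ∑ i, ∑ i', w i * w i' * ((S1 (del j (A i)) (del j (A i')) : ℝ) +
        (if j ∈ A i ∧ j ∈ A i' then (DD (A i) (A i') j : ℝ) else 0) +
        j * (if ¬ (j ∈ A i ↔ j ∈ A i') then 1 else 0)) := by
      refine sum_le_sum fun i _ => sum_le_sum fun i' _ => ?_
      refine mul_le_mul_of_nonneg_left ?_ (mul_nonneg (hL.w0 i) (hL.w0 i'))
      have := S1_del j (A i) (A i')
      exact_mod_cast this
    have h2 : ∑ i, ∑ i', w i * w i' * ((S1 (del j (A i)) (del j (A i')) : ℝ) +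
        (if j ∈ A i ∧ j ∈ A i' then (DD (A i) (A i') j : ℝ) else 0) +
        j * (if ¬ (j ∈ A i ↔ j ∈ A i') then 1 else 0)) =
        J w (fun i => del j (A i)) +
        ∑ i, ∑ i', (if j ∈ A i ∧ j ∈ A i' then w i * w i' * (DD (A i) (A i') j : ℝ) else 0) +
        j * ∑ i, ∑ i', w i * w i' * (if ¬ (j ∈ A i ↔ j ∈ A i') then 1 else 0) := by
      unfold J
      rw [mul_sum, ← sum_add_distrib, ← sum_add_distrib]
      refine sum_congr rfl fun i _ => ?_
      rw [mul_sum, ← sum_add_distrib, ← sum_add_distrib]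
      refine sum_congr rfl fun i' _ => ?_
      split_ifs <;> ring
    have h3 := hID1 ι (n + 1) w A hL j hj
    have h4 : ∑ k ∈ Ioo j (n + 1), (p w A j * g w A j k - g w A j k ^ 2
          + p w A j * G w A j k - G w A j k ^ 2) ≤ ((n : ℝ) - j) * p w A j ^ 2 / 2 := by
      have : ∑ k ∈ Ioo j (n + 1), (p w A j * g w A j k - g w A j k ^ 2
          + p w A j * G w A j k - G w A j k ^ 2) ≤ ∑ _k ∈ Ioo j (n + 1), p w A j ^ 2 / 2 := by
        refine sum_le_sum fun k _ => ?_
        nlinarith [sq_nonneg (p w A j / 2 - g w A j k), sq_nonneg (p w A j / 2 - G w A j k)]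
      refine this.trans (le_of_eq ?_)
      rw [sum_const, Nat.card_Ioo, nsmul_eq_mul]
      have e : ((n + 1 - j - 1 : ℕ) : ℝ) = (n : ℝ) - j := by
        have : n + 1 - j - 1 + j = n := by omega
        have h' : ((n + 1 - j - 1 + j : ℕ) : ℝ) = n := by exact_mod_cast this
        push_cast at h'
        linarith
      rw [e]; ring
    have h5 : ∑ i, ∑ i', w i * w i' * (if ¬ (j ∈ A i ↔ j ∈ A i') then (1 : ℝ) else 0) =
        2 * (p w A j * (1 - p w A j)) := by
      have e1 : p w A j = ∑ i, w i * (if j ∈ A i then (1 : ℝ) else 0) := by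
        unfold p
        refine sum_congr rfl fun i _ => ?_
        split_ifs <;> simp
      have e2 : 1 - p w A j = ∑ i, w i * (if j ∈ A i then (0 : ℝ) else 1) := by
        have e0 : (1 : ℝ) - p w A j = ∑ i, w i - p w A j := by rw [hL.w1]
        rw [e0]
        unfold p
        rw [← sum_sub_distrib]
        refine sum_congr rfl fun i _ => ?_
        split_ifs <;> simp
      have e3 : 2 * (p w A j * (1 - p w A j)) =
          p w A j * (1 - p w A j) + (1 - p w A j) * p w A j := by ring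
      rw [e3]
      rw [e2]
      conv_rhs => rw [e1]
      rw [sum_mul_sum, sum_mul_sum, ← sum_add_distrib]
      refine sum_congr rfl fun i _ => ?_
      rw [← sum_add_distrib]
      refine sum_congr rfl fun i' _ => ?_
      by_cases a : j ∈ A i <;> by_cases b : j ∈ A i' <;> simp [a, b]
    rw [h2, h3, h5] at h1
    linarith

end Pool.Agent.Lib.MP_efec9b_co.Q
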