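import Pool.Agent.Lib.MP_efec9b_co.Q.Defs43

/-!
MP_efec9b_co, row DEL: deleting a column.
-/

set_option autoImplicit false

namespace Pool.Agent.Lib.MP_efec9b_co.Q.D91

open Finset Pool.Agent.Lib.MP_efec9b_co.Q

/-- renumbering after the column `j` is deleted -/
def φ (j k : ℕ) : ℕ := if k < j then k else k - 1

/-- the set without column `j`, renumbered -/
def del (j : ℕ) (A : Finset ℕ) : Finset ℕ := (A.erase j).image (φ j)

theorem φ_lt {j x y : ℕ} (hx : x ≠ j) (hy : y ≠ j) : φ j x < φ j y ↔ x < y := by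
  unfold φ
  split_ifs <;> omega

theorem φ_inj {j x y : ℕ} (hx : x ≠ j) (hy : y ≠ j) (h : φ j x = φ j y) : x = y := by
  unfold φ at h
  split_ifs at h <;> omega

theorem mem_del {j x : ℕ} {A : Finset ℕ} (hx : x ≠ j) : φ j x ∈ del j A ↔ x ∈ A := by
  unfold del
  rw [mem_image]
  constructor
  · rintro ⟨y, hy, h⟩
    rw [mem_erase] at hy
    rw [← φ_inj hy.1 hx h]
    exact hy.2
  · intro h
    exact ⟨x, mem_erase.mpr ⟨hx, h⟩, rfl⟩

theorem del_sub {n j : ℕ} {A : Finset ℕ} (hj : j < n + 1) (hA : A ⊆ range (n + 1)) :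
    del j A ⊆ range n := by
  intro y hy
  unfold del at hy
  rw [mem_image] at hy
  obtain ⟨x, hx, rfl⟩ := hy
  rw [mem_erase] at hx
  have h1 := mem_range.mp (hA hx.2)
  rw [mem_range]
  have := hx.1
  unfold φ
  split_ifs <;> omega

theorem card_le {j x : ℕ} (A B : Finset ℕ) (hx : x ≠ j) :
    ((A \ B).filter (fun k => x < k)).card ≤
      ((del j A \ del j B).filter (fun k => φ j x < k)).card +
        (if x < j ∧ j ∈ A ∧ j ∉ B then 1 else 0) := by
  set T := (A \ B).filter (fun k => x < k) with hT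
  have h1 : (T.erase j).card ≤ ((del j A \ del j B).filter (fun k => φ j x < k)).card := by
    refine card_le_card_of_injOn (φ j) ?_ ?_
    · intro k hk
      have hk' : k ∈ T.erase j := hk
      rw [mem_erase, hT, mem_filter, Finset.mem_sdiff] at hk'
      obtain ⟨a, ⟨b, c⟩, d⟩ := hk'
      refine mem_filter.mpr ⟨Finset.mem_sdiff.mpr ⟨(mem_del a).mpr b, fun h => c ((mem_del a).mp h)⟩,
        (φ_lt hx a).mpr d⟩
    · intro k hk l hl h
      have hk' : k ∈ T.erase j := hk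
      have hl' : l ∈ T.erase j := hl
      exact φ_inj (mem_erase.mp hk').1 (mem_erase.mp hl').1 h
  have h2 : T.card ≤ (T.erase j).card + (if x < j ∧ j ∈ A ∧ j ∉ B then 1 else 0) := by
    by_cases hj : j ∈ T
    · have h3 : x < j ∧ j ∈ A ∧ j ∉ B := by
        rw [hT, mem_filter, Finset.mem_sdiff] at hj
        exact ⟨hj.2, hj.1.1, hj.1.2⟩
      rw [if_pos h3, card_erase_of_mem hj]
      omega
    · rw [erase_eq_of_notMem hj]
      omega
  omega

theorem DD_le {j x : ℕ} (A B : Finset ℕ) (hx : x ≠ j) :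
    DD A B x ≤ DD (del j A) (del j B) (φ j x) +
      (if x < j ∧ ((j ∈ A ∧ j ∉ B) ∨ (j ∈ B ∧ j ∉ A)) then 1 else 0) := by
  have h1 := card_le A B hx
  have h2 := card_le B A hx
  unfold DD
  by_cases ha : x < j ∧ j ∈ A ∧ j ∉ B
  · have hb : ¬ (x < j ∧ j ∈ B ∧ j ∉ A) := fun h => ha.2.2 h.2.1
    have hc : x < j ∧ ((j ∈ A ∧ j ∉ B) ∨ (j ∈ B ∧ j ∉ A)) := ⟨ha.1, Or.inl ha.2⟩
    rw [if_pos ha] at h1
    rw [if_neg hb] at h2
    rw [if_pos hc]
    omega
  · by_cases hb : x < j ∧ j ∈ B ∧ j ∉ A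
    · have hc : x < j ∧ ((j ∈ A ∧ j ∉ B) ∨ (j ∈ B ∧ j ∉ A)) := ⟨hb.1, Or.inr hb.2⟩
      rw [if_neg ha] at h1
      rw [if_pos hb] at h2
      rw [if_pos hc]
      omega
    · rw [if_neg ha] at h1
      rw [if_neg hb] at h2
      omega

theorem S1_le (j : ℕ) (A B : Finset ℕ) :
    S1 A B ≤ S1 (del j A) (del j B) +
      (if (j ∈ A ∧ j ∉ B) ∨ (j ∈ B ∧ j ∉ A) then j else 0) +
      (if j ∈ A ∧ j ∈ B then DD A B j else 0) := by
  have h0 : S1 A B = ∑ x ∈ (A ∩ B).erase j, DD A B x + (if j ∈ A ∧ j ∈ B then DD A B j else 0) := by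
    unfold S1
    by_cases h : j ∈ A ∩ B
    · rw [if_pos (mem_inter.mp h), Finset.sum_erase_add _ _ h]
    · rw [if_neg (fun h' => h (mem_inter.mpr h')), erase_eq_of_notMem h, add_zero]
  have h1 : ∑ x ∈ (A ∩ B).erase j, DD A B x ≤
      ∑ x ∈ (A ∩ B).erase j, DD (del j A) (del j B) (φ j x) +
      ∑ x ∈ (A ∩ B).erase j,
        (if x < j ∧ ((j ∈ A ∧ j ∉ B) ∨ (j ∈ B ∧ j ∉ A)) then 1 else 0) := by
    rw [← sum_add_distrib]
    exact sum_le_sum fun x hx => DD_le A B (mem_erase.mp hx).1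
  have h2 : ∑ x ∈ (A ∩ B).erase j, DD (del j A) (del j B) (φ j x) ≤ S1 (del j A) (del j B) := by
    unfold S1
    rw [← sum_image (f := fun y => DD (del j A) (del j B) y) (g := φ j)
      (s := (A ∩ B).erase j)]
    · refine sum_le_sum_of_subset ?_
      intro y hy
      rw [mem_image] at hy
      obtain ⟨x, hx, rfl⟩ := hy
      rw [mem_erase, mem_inter] at hx
      exact mem_inter.mpr ⟨(mem_del hx.1).mpr hx.2.1, (mem_del hx.1).mpr hx.2.2⟩
    · intro x hx y hy h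
      exact φ_inj (mem_erase.mp hx).1 (mem_erase.mp hy).1 h
  have h3 : ∑ x ∈ (A ∩ B).erase j,
        (if x < j ∧ ((j ∈ A ∧ j ∉ B) ∨ (j ∈ B ∧ j ∉ A)) then 1 else 0) ≤
      (if (j ∈ A ∧ j ∉ B) ∨ (j ∈ B ∧ j ∉ A) then j else 0) := by
    by_cases hc : (j ∈ A ∧ j ∉ B) ∨ (j ∈ B ∧ j ∉ A)
    · rw [if_pos hc, ← card_filter]
      refine le_trans (card_le_card (t := range j) ?_) (card_range j).le
      intro x hx
      rw [mem_filter] at hx
      exact mem_range.mpr hx.2.1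
    · rw [if_neg hc]
      refine le_of_eq (sum_eq_zero fun x _ => ?_)
      rw [if_neg fun h => hc h.2]
  omega

theorem del91 (h : StID1) : StDEL := by
  intro ι _ n w A hL j hj
  refine ⟨fun i => del j (A i), ⟨hL.w0, hL.w1, fun i => del_sub hj (hL.sub i)⟩, ?_⟩
  classical
  -- the symmetric difference part
  have e1 : ∑ i, ∑ i', w i * w i' *
      ((if (j ∈ A i ∧ j ∉ A i') ∨ (j ∈ A i' ∧ j ∉ A i) then j else 0 : ℕ) : ℝ) =
      2 * j * p w A j * (1 - p w A j) := by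
    have hp : p w A j = ∑ i, w i * (if j ∈ A i then (1 : ℝ) else 0) := by
      unfold p
      exact sum_congr rfl fun i _ => by split_ifs <;> simp
    have hq : 1 - p w A j = ∑ i, w i * (if j ∈ A i then (0 : ℝ) else 1) := by
      have h1 := hL.w1
      rw [hp]
      nth_rewrite 1 [← h1]
      rw [← sum_sub_distrib]
      exact sum_congr rfl fun i _ => by split_ifs <;> simp
    have e2 : ∀ i i', w i * w i' *
        ((if (j ∈ A i ∧ j ∉ A i') ∨ (j ∈ A i' ∧ j ∉ A i) then j else 0 : ℕ) : ℝ) =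
        (j : ℝ) * ((w i * (if j ∈ A i then (1 : ℝ) else 0)) * (w i' * (if j ∈ A i' then (0 : ℝ) else 1)))
        + (j : ℝ) * ((w i * (if j ∈ A i then (0 : ℝ) else 1)) *
          (w i' * (if j ∈ A i' then (1 : ℝ) else 0))) := by
      intro i i'
      by_cases a : j ∈ A i <;> by_cases b : j ∈ A i' <;> simp [a, b] <;> ring
    rw [sum_congr rfl fun i _ => sum_congr rfl fun i' _ => e2 i i']
    simp only [sum_add_distrib, ← mul_sum, ← sum_mul]
    rw [← hp, ← hq]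
    ring
  -- the column itself
  have e3 : ∑ i, ∑ i', w i * w i' * ((if j ∈ A i ∧ j ∈ A i' then DD (A i) (A i') j else 0 : ℕ) : ℝ) ≤
      ((n : ℝ) - j) * p w A j ^ 2 / 2 := by
    have e4 := h ι (n + 1) w A hL j hj
    have e5 : ∑ i, ∑ i', w i * w i' *
        ((if j ∈ A i ∧ j ∈ A i' then DD (A i) (A i') j else 0 : ℕ) : ℝ) =
        ∑ i, ∑ i', (if j ∈ A i ∧ j ∈ A i' then w i * w i' * (DD (A i) (A i') j : ℝ) else 0) := by
      refine sum_congr rfl fun i _ => sum_congr rfl fun i' _ => ?_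
      split_ifs <;> simp
    rw [e5, e4]
    have e6 : ∀ k ∈ Ioo j (n + 1), p w A j * g w A j k - g w A j k ^ 2
          + p w A j * G w A j k - G w A j k ^ 2 ≤ p w A j ^ 2 / 2 := by
      intro k _
      nlinarith [sq_nonneg (g w A j k - p w A j / 2), sq_nonneg (G w A j k - p w A j / 2)]
    refine (sum_le_sum e6).trans ?_
    rw [sum_const, Nat.card_Ioo, nsmul_eq_mul]
    have e7 : ((n + 1 - j - 1 : ℕ) : ℝ) = (n : ℝ) - j := by
      rw [show n + 1 - j - 1 = n - j by omega, Nat.cast_sub (by omega)]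
    rw [e7]
    linarith
  have e8 : J w A ≤ ∑ i, ∑ i', w i * w i' * ((S1 (del j (A i)) (del j (A i')) +
      (if (j ∈ A i ∧ j ∉ A i') ∨ (j ∈ A i' ∧ j ∉ A i) then j else 0) +
      (if j ∈ A i ∧ j ∈ A i' then DD (A i) (A i') j else 0) : ℕ) : ℝ) := by
    unfold J
    refine sum_le_sum fun i _ => sum_le_sum fun i' _ => ?_
    refine mul_le_mul_of_nonneg_left ?_ (mul_nonneg (hL.w0 i) (hL.w0 i'))
    exact_mod_cast S1_le j (A i) (A i')
  have e9 : ∑ i, ∑ i', w i * w i' * ((S1 (del j (A i)) (del j (A i')) +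
      (if (j ∈ A i ∧ j ∉ A i') ∨ (j ∈ A i' ∧ j ∉ A i) then j else 0) +
      (if j ∈ A i ∧ j ∈ A i' then DD (A i) (A i') j else 0) : ℕ) : ℝ) =
      J w (fun i => del j (A i)) + ∑ i, ∑ i', w i * w i' *
      ((if (j ∈ A i ∧ j ∉ A i') ∨ (j ∈ A i' ∧ j ∉ A i) then j else 0 : ℕ) : ℝ) +
      ∑ i, ∑ i', w i * w i' *
        ((if j ∈ A i ∧ j ∈ A i' then DD (A i) (A i') j else 0 : ℕ) : ℝ) := by
    unfold J
    simp only [← sum_add_distrib]
    refine sum_congr rfl fun i _ => sum_congr rfl fun i' _ => ?_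
    push_cast
    ring
  rw [e9, e1] at e8
  linarith

end Pool.Agent.Lib.MP_efec9b_co.Q.D91
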