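import Pool.Agent.Lib.MP_efec9b_co.Q.Defs43

namespace Pool.Agent.Lib.MP_efec9b_co.Q

open Finset

namespace ID81

theorem card_sum {A : Finset ℕ} {n : ℕ} (j : ℕ) (hA : A ⊆ range n) :
    ((A.filter (fun k => j < k)).card : ℝ) = ∑ k ∈ Ioo j n, (if k ∈ A then (1:ℝ) else 0) := by
  rw [Finset.sum_boole]
  congr 2
  ext k
  simp only [mem_filter, mem_Ioo]
  constructor
  · rintro ⟨h1, h2⟩
    exact ⟨⟨h2, mem_range.1 (hA h1)⟩, h1⟩
  · rintro ⟨⟨h1, h2⟩, h3⟩
    exact ⟨h3, h1⟩

theorem thr_sum {n j r : ℕ} (h : j + r < n) :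
    (r : ℝ) = ∑ k ∈ Ioo j n, (if k ≤ j + r then (1:ℝ) else 0) := by
  rw [Finset.sum_boole]
  have : (Ioo j n).filter (fun k => k ≤ j + r) = Ioc j (j + r) := by
    ext k
    simp only [mem_filter, mem_Ioo, mem_Ioc]
    omega
  rw [this, Nat.card_Ioc]
  simp

theorem rho_lt {A : Finset ℕ} {n j : ℕ} (hj : j < n) (hA : A ⊆ range n) :
    j + rho A j < n := by
  have h : (A.filter (fun k => j < k)) ⊆ Ioo j n := by
    intro k hk
    rw [mem_filter] at hk
    exact mem_Ioo.2 ⟨hk.2, mem_range.1 (hA hk.1)⟩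
  have h2 := card_le_card h
  rw [Nat.card_Ioo] at h2
  unfold rho
  omega

/-- the pair formula -/
theorem pair {A B : Finset ℕ} {n j : ℕ} (hj : j < n) (hA : A ⊆ range n) (hB : B ⊆ range n) :
    (DD A B j : ℝ) = ∑ k ∈ Ioo j n,
      ((1 / 2 * ((if k ∈ A then (1:ℝ) else 0) + (if k ∈ B then (1:ℝ) else 0))
        - (if k ∈ A then (1:ℝ) else 0) * (if k ∈ B then (1:ℝ) else 0))
      + (1 / 2 * ((if k ≤ j + rho A j then (1:ℝ) else 0) + (if k ≤ j + rho B j then (1:ℝ) else 0))
        - (if k ≤ j + rho A j then (1:ℝ) else 0) * (if k ≤ j + rho B j then (1:ℝ) else 0))) := by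
  have ha := card_sum j ((sdiff_subset (s := A) (t := B)).trans hA)
  have hb := card_sum j ((sdiff_subset (s := B) (t := A)).trans hB)
  have hra := thr_sum (rho_lt hj hA)
  have hrb := thr_sum (rho_lt hj hB)
  have hra' : (rho A j : ℝ) = _ := card_sum j hA
  have hrb' : (rho B j : ℝ) = _ := card_sum j hB
  have hm : j + min (rho A j) (rho B j) < n := by
    have := rho_lt hj hA
    omega
  have hmin := thr_sum hm
  have hprod : ∑ k ∈ Ioo j n, (if k ≤ j + rho A j then (1:ℝ) else 0)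
      * (if k ≤ j + rho B j then (1:ℝ) else 0) = ((min (rho A j) (rho B j) : ℕ) : ℝ) := by
    rw [hmin]
    refine sum_congr rfl fun k _ => ?_
    by_cases h1 : k ≤ j + rho A j <;> by_cases h2 : k ≤ j + rho B j
    · rw [if_pos h1, if_pos h2, if_pos (by omega)]; norm_num
    · rw [if_pos h1, if_neg h2, if_neg (by omega)]; norm_num
    · rw [if_neg h1, if_pos h2, if_neg (by omega)]; norm_num
    · rw [if_neg h1, if_neg h2, if_neg (by omega)]; norm_num
  have hsum : ∑ k ∈ Ioo j n, (1 / 2 * ((if k ∈ A then (1:ℝ) else 0) + (if k ∈ B then (1:ℝ) else 0))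
        - (if k ∈ A then (1:ℝ) else 0) * (if k ∈ B then (1:ℝ) else 0))
      = 1 / 2 * ((((A \ B).filter (fun k => j < k)).card : ℝ)
        + (((B \ A).filter (fun k => j < k)).card : ℝ)) := by
    rw [ha, hb, ← sum_add_distrib, mul_sum]
    refine sum_congr rfl fun k _ => ?_
    by_cases h1 : k ∈ A <;> by_cases h2 : k ∈ B <;> simp [h1, h2]
    norm_num
  have hdiff : (((A \ B).filter (fun k => j < k)).card : ℝ)
      - (((B \ A).filter (fun k => j < k)).card : ℝ) = (rho A j : ℝ) - (rho B j : ℝ) := by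
    rw [ha, hb, hra', hrb', ← sum_sub_distrib, ← sum_sub_distrib]
    refine sum_congr rfl fun k _ => ?_
    by_cases h1 : k ∈ A <;> by_cases h2 : k ∈ B <;> simp [h1, h2]
  rw [sum_add_distrib, hsum]
  have hthr : ∑ k ∈ Ioo j n, (1 / 2 * ((if k ≤ j + rho A j then (1:ℝ) else 0)
        + (if k ≤ j + rho B j then (1:ℝ) else 0))
        - (if k ≤ j + rho A j then (1:ℝ) else 0) * (if k ≤ j + rho B j then (1:ℝ) else 0))
      = 1 / 2 * ((rho A j : ℝ) + (rho B j : ℝ)) - ((min (rho A j) (rho B j) : ℕ) : ℝ) := by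
    rw [sum_sub_distrib, hprod, ← mul_sum, sum_add_distrib, ← hra, ← hrb]
  rw [hthr]
  unfold DD
  rw [Nat.cast_max, Nat.cast_min]
  rcases le_total (rho A j : ℝ) (rho B j : ℝ) with h | h
  · rw [min_eq_left h, max_eq_right (by linarith)]
    linarith
  · rw [min_eq_right h, max_eq_left (by linarith)]
    linarith

theorem dbl {ι : Type} [Fintype ι] (P f : ι → ℝ) :
    ∑ i, ∑ i', (1 / 2 * (f i * P i' + P i * f i') - f i * f i')
      = (∑ i, P i) * (∑ i, f i) - (∑ i, f i) ^ 2 := by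
  have h : ∀ i, ∑ i', (1 / 2 * (f i * P i' + P i * f i') - f i * f i')
      = 1 / 2 * (f i * (∑ i', P i') + P i * (∑ i', f i')) - f i * (∑ i', f i') := by
    intro i
    rw [sum_sub_distrib, ← mul_sum, sum_add_distrib, ← mul_sum, ← mul_sum, ← mul_sum]
  rw [sum_congr rfl fun i _ => h i, sum_sub_distrib, ← mul_sum, sum_add_distrib, ← sum_mul,
    ← sum_mul, ← sum_mul]
  ring

theorem term {A B : Finset ℕ} {n j : ℕ} (hj : j < n) (hA : A ⊆ range n) (hB : B ⊆ range n)
    (u v : ℝ) :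
    (if j ∈ A ∧ j ∈ B then u * v * (DD A B j : ℝ) else 0) = ∑ k ∈ Ioo j n,
      ((1 / 2 * ((if j ∈ A ∧ k ∈ A then u else 0) * (if j ∈ B then v else 0)
          + (if j ∈ A then u else 0) * (if j ∈ B ∧ k ∈ B then v else 0))
        - (if j ∈ A ∧ k ∈ A then u else 0) * (if j ∈ B ∧ k ∈ B then v else 0))
      + (1 / 2 * ((if j ∈ A ∧ k ≤ j + rho A j then u else 0) * (if j ∈ B then v else 0)
          + (if j ∈ A then u else 0) * (if j ∈ B ∧ k ≤ j + rho B j then v else 0))
        - (if j ∈ A ∧ k ≤ j + rho A j then u else 0)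
          * (if j ∈ B ∧ k ≤ j + rho B j then v else 0))) := by
  by_cases h1 : j ∈ A
  · by_cases h2 : j ∈ B
    · rw [if_pos ⟨h1, h2⟩, pair hj hA hB, mul_sum]
      refine sum_congr rfl fun k _ => ?_
      simp only [h1, h2, true_and, if_true]
      split_ifs <;> ring
    · rw [if_neg (fun h => h2 h.2)]
      symm
      refine sum_eq_zero fun k _ => ?_
      simp [h2]
  · rw [if_neg (fun h => h1 h.1)]
    symm
    refine sum_eq_zero fun k _ => ?_
    simp [h1]

end ID81

open ID81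

theorem stID1_81 : StID1 := by
  intro ι _ n w A hL j hj
  rw [sum_congr rfl fun i _ => sum_congr rfl fun i' _ =>
    term hj (hL.sub i) (hL.sub i') (w i) (w i')]
  rw [sum_congr rfl fun i _ => sum_comm, sum_comm]
  refine sum_congr rfl fun k _ => ?_
  rw [sum_congr rfl fun i _ => sum_add_distrib, sum_add_distrib]
  rw [dbl (fun i => if j ∈ A i then w i else 0) (fun i => if j ∈ A i ∧ k ∈ A i then w i else 0),
    dbl (fun i => if j ∈ A i then w i else 0)
      (fun i => if j ∈ A i ∧ k ≤ j + rho (A i) j then w i else 0)]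
  unfold p g G
  ring

theorem stID81 : StID := by
  intro ι _ n w A hL
  have h : J w A = ∑ j ∈ range n, ∑ i, ∑ i', (if j ∈ A i ∧ j ∈ A i' then
      w i * w i' * (DD (A i) (A i') j : ℝ) else 0) := by
    unfold J
    rw [sum_comm (s := range n)]
    refine sum_congr rfl fun i _ => ?_
    rw [sum_comm (s := range n)]
    refine sum_congr rfl fun i' _ => ?_
    rw [← sum_filter]
    have hf : (range n).filter (fun j => j ∈ A i ∧ j ∈ A i') = A i ∩ A i' := by
      ext j
      simp only [mem_filter, mem_inter]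
      exact ⟨fun h => h.2, fun h => ⟨hL.sub i h.1, h⟩⟩
    rw [hf, ← mul_sum]
    unfold S1
    rw [Nat.cast_sum]
  rw [h]
  exact sum_congr rfl fun j hj => stID1_81 ι n w A hL j (mem_range.1 hj)

end Pool.Agent.Lib.MP_efec9b_co.Q
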