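import Pool.Agent.Lib.MP_efec9b_co.Q.Defs43

/-! Row IND of MP_efec9b_co: the final bound from the other rows. -/

namespace Pool.Agent.Lib.MP_efec9b_co.Q

open Finset

theorem p_nonneg16 {ι : Type} [Fintype ι] {n : ℕ} {w : ι → ℝ} {A : ι → Finset ℕ}
    (h : IsLaw n w A) (j : ℕ) : 0 ≤ p w A j := by
  unfold p
  refine Finset.sum_nonneg fun i _ => ?_
  split_ifs
  · exact h.w0 i
  · exact le_rfl

theorem p_le_one16 {ι : Type} [Fintype ι] {n : ℕ} {w : ι → ℝ} {A : ι → Finset ℕ}
    (h : IsLaw n w A) (j : ℕ) : p w A j ≤ 1 := by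
  unfold p
  rw [← h.w1]
  refine Finset.sum_le_sum fun i _ => ?_
  split_ifs
  · exact le_rfl
  · exact h.w0 i

theorem slack_sum16 {ι : Type} [Fintype ι] {n : ℕ} {w : ι → ℝ} {A : ι → Finset ℕ}
    (h : IsLaw n w A) (f : ℕ → ℝ) :
    ∑ i, w i * ∑ y ∈ range (K n) \ A i, f y = ∑ y ∈ range (K n), (1 - p w A y) * f y := by
  have e1 : ∀ i, ∑ y ∈ range (K n) \ A i, f y
      = ∑ y ∈ range (K n), (if y ∈ A i then 0 else f y) := by
    intro i
    rw [← Finset.filter_notMem_eq_sdiff, Finset.sum_filter]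
    refine Finset.sum_congr rfl fun y _ => ?_
    by_cases hy : y ∈ A i
    · rw [if_pos hy, if_neg (by simp [hy])]
    · rw [if_neg hy, if_pos hy]
  simp only [e1, Finset.mul_sum]
  rw [Finset.sum_comm]
  refine Finset.sum_congr rfl fun y _ => ?_
  have e2 : (1 - p w A y) * f y = ∑ i, w i * (if y ∈ A i then 0 else f y) := by
    unfold p
    rw [← h.w1, ← Finset.sum_sub_distrib, Finset.sum_mul]
    refine Finset.sum_congr rfl fun i _ => ?_
    split_ifs <;> ring
  rw [e2]

theorem ind16 (hID : StID) (hLIN : StLIN) (hSL : StSL) (hCN : StCN) (hQD : StQD)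
    (hCL : StCL) (hCOL : StCOL) (hDEL : StDEL) : StUP := by
  obtain ⟨C1, hC1, hSL⟩ := hSL
  obtain ⟨C2, hC2, hCN⟩ := hCN
  obtain ⟨C3, hC3, hCL⟩ := hCL
  refine ⟨2 * C1 + C2 + C3 + 1, by linarith, ?_⟩
  intro ι _ n
  induction n with
  | zero =>
    intro w A h
    have hJ : J w A = 0 := by
      unfold J
      refine Finset.sum_eq_zero fun i _ => Finset.sum_eq_zero fun i' _ => ?_
      have hi : A i = ∅ := by
        have := h.sub i
        rw [Finset.range_zero, Finset.subset_empty] at this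
        exact this
      have : S1 (A i) (A i') = 0 := by
        unfold S1
        rw [hi]
        simp
      rw [this]
      simp
    rw [hJ]
    simp
  | succ n ih =>
    intro w A h
    have hc0 : 0 < c := Real.exp_pos _
    have hc1 : c ≤ 1 := by
      unfold c
      exact Real.exp_le_one_iff.2 (by norm_num)
    have hcc : c ^ 2 ≤ 1 := by nlinarith
    by_cases hcase : ∃ j < n + 1, ((n : ℝ) - j) * p w A j ^ 2 / 2
        + 2 * j * p w A j * (1 - p w A j) ≤ 2 * c ^ 2 * ((n : ℝ) + 1)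
    · obtain ⟨j, hj, hle⟩ := hcase
      obtain ⟨A', hA', hJ⟩ := hDEL ι n w A h j hj
      have h2 := ih w A' hA'
      push_cast
      have hn : (0 : ℝ) ≤ n := Nat.cast_nonneg n
      nlinarith [hJ, h2, hle, hcc]
    · push Not at hcase
      have hn1 : 0 < n + 1 := Nat.succ_pos n
      have hq : ∀ j < K (n + 1), 1 - p w A j ≤ 0.476 ∧
          ((j : ℝ) ≤ 0.28 * ((n + 1 : ℕ) : ℝ) → 1 - p w A j ≤ 0.381) := by
        intro j hj
        have hjn : j < n + 1 := by
          have hK : K (n + 1) ≤ n + 1 := by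
            unfold K
            apply Nat.ceil_le.2
            have : (0 : ℝ) ≤ ((n + 1 : ℕ) : ℝ) := Nat.cast_nonneg _
            nlinarith
          exact lt_of_lt_of_le hj hK
        refine hCOL (n + 1) j (p w A j) hn1 hj (p_nonneg16 h j) (p_le_one16 h j) ?_
        have := hcase j hjn
        push_cast
        have e : (n : ℝ) + 1 - 1 - j = n - j := by ring
        rw [e]
        exact this
      have e0 := hID ι (n + 1) w A h
      have e1 := hLIN ι (n + 1) w A h
      have e2 := hQD ι (n + 1) w A hn1 h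
      have e3 := hCL (n + 1) (fun j => 1 - p w A j) hn1
        (fun j => sub_nonneg.2 (p_le_one16 h j)) (fun j hj => (hq j hj).1)
        (fun j hj hj2 => (hq j hj).2 hj2)
      have e4 := hCN (n + 1)
      have e5 : ∑ i, w i * Ss (n + 1) (A i) ≤ c ^ 2 * ((n + 1 : ℕ) : ℝ) ^ 2
          - 0.6136 * ∑ y ∈ range (K (n + 1)), (1 - p w A y) * (c * ((n + 1 : ℕ) : ℝ) - y)
          + C1 * ((n + 1 : ℕ) : ℝ) := by
        have e6 : ∑ i, w i * Ss (n + 1) (A i) ≤ ∑ i, w i * (c ^ 2 * ((n + 1 : ℕ) : ℝ) ^ 2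
            - 0.6136 * ∑ y ∈ range (K (n + 1)) \ A i, (c * ((n + 1 : ℕ) : ℝ) - y)
            + C1 * ((n + 1 : ℕ) : ℝ)) :=
          Finset.sum_le_sum fun i _ => mul_le_mul_of_nonneg_left
            (hSL (n + 1) (A i) (h.sub i)) (h.w0 i)
        refine e6.trans (le_of_eq ?_)
        rw [← slack_sum16 h (fun y => c * ((n + 1 : ℕ) : ℝ) - y)]
        have e7 : ∀ i, w i * (c ^ 2 * ((n + 1 : ℕ) : ℝ) ^ 2
            - 0.6136 * ∑ y ∈ range (K (n + 1)) \ A i, (c * ((n + 1 : ℕ) : ℝ) - y)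
            + C1 * ((n + 1 : ℕ) : ℝ))
            = w i * (c ^ 2 * ((n + 1 : ℕ) : ℝ) ^ 2 + C1 * ((n + 1 : ℕ) : ℝ))
              - 0.6136 * (w i * ∑ y ∈ range (K (n + 1)) \ A i, (c * ((n + 1 : ℕ) : ℝ) - y)) := by
          intro i
          ring
        simp only [e7]
        rw [Finset.sum_sub_distrib, ← Finset.sum_mul, h.w1, ← Finset.mul_sum]
        ring
      rw [e0, e1]
      linarith

end Pool.Agent.Lib.MP_efec9b_co.Q
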