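import Pool.Agent.Lib.MP_efec9b_co.Q.Defs43

/-! MP_efec9b_co, H = (0 0; 0 1): the induction on the number of columns. -/

namespace Pool.Agent.Lib.MP_efec9b_co.Q

open Finset

lemma sum_q_eq {ι : Type} [Fintype ι] (n : ℕ) (w : ι → ℝ) (A : ι → Finset ℕ)
    (hl : IsLaw n w A) (B : Finset ℕ) (f : ℕ → ℝ) :
    ∑ i, w i * ∑ y ∈ B \ A i, f y = ∑ y ∈ B, (1 - p w A y) * f y := by
  have h1 : ∀ y, 1 - p w A y = ∑ i, if y ∈ A i then 0 else w i := by
    intro y
    rw [← hl.w1, p, ← Finset.sum_sub_distrib]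
    refine Finset.sum_congr rfl fun i _ => ?_
    split_ifs <;> ring
  simp_rw [h1]
  simp_rw [Finset.sum_mul, Finset.mul_sum]
  rw [Finset.sum_comm (s := B)]
  refine Finset.sum_congr rfl fun i _ => ?_
  rw [Finset.sdiff_eq_filter, Finset.sum_filter]
  refine Finset.sum_congr rfl fun y _ => ?_
  split_ifs <;> simp_all

lemma p_nonneg {ι : Type} [Fintype ι] (n : ℕ) (w : ι → ℝ) (A : ι → Finset ℕ)
    (hl : IsLaw n w A) (j : ℕ) : 0 ≤ p w A j := by
  unfold p
  refine Finset.sum_nonneg fun i _ => ?_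
  split_ifs
  · exact hl.w0 i
  · exact le_rfl

lemma p_le_one {ι : Type} [Fintype ι] (n : ℕ) (w : ι → ℝ) (A : ι → Finset ℕ)
    (hl : IsLaw n w A) (j : ℕ) : p w A j ≤ 1 := by
  rw [← hl.w1]
  unfold p
  refine Finset.sum_le_sum fun i _ => ?_
  split_ifs
  · exact le_rfl
  · exact hl.w0 i

lemma K_le (n : ℕ) : K n ≤ n := by
  unfold K
  have h : c ≤ 1 := by
    unfold c
    exact Real.exp_le_one_iff.mpr (by norm_num)
  refine Nat.ceil_le.mpr ?_
  have : (0 : ℝ) ≤ n := Nat.cast_nonneg n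
  nlinarith

theorem ind43 (hID : StID) (hLIN : StLIN) (hSL : StSL) (hCN : StCN) (hQD : StQD) (hCL : StCL)
    (hCOL : StCOL) (hDEL : StDEL) : StUP := by
  obtain ⟨C1, hC1, hSL⟩ := hSL
  obtain ⟨C2, hC2, hCN⟩ := hCN
  obtain ⟨C3, hC3, hCL⟩ := hCL
  refine ⟨2 * C1 + C2 + C3 + 1, by positivity, ?_⟩
  intro ι _ n
  induction n with
  | zero =>
    intro w A hl
    have hA : ∀ i, A i = ∅ := fun i => by simpa using hl.sub i
    have : J w A = 0 := by
      unfold J
      refine Finset.sum_eq_zero fun i _ => Finset.sum_eq_zero fun i' _ => ?_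
      simp [hA, S1]
    rw [this]
    positivity
  | succ n ih =>
    intro w A hl
    have hn : (0 : ℝ) ≤ n := Nat.cast_nonneg n
    have hc1 : c ^ 2 ≤ 1 := by
      have h0 : 0 ≤ c := (Real.exp_pos _).le
      have h1 : c ≤ 1 := Real.exp_le_one_iff.mpr (by norm_num)
      nlinarith
    by_cases hcol : ∃ j < n + 1, ((n : ℝ) - j) * p w A j ^ 2 / 2
        + 2 * j * p w A j * (1 - p w A j) ≤ 2 * c ^ 2 * ((n : ℝ) + 1)
    · obtain ⟨j, hj, hjl⟩ := hcol
      obtain ⟨A', hl', hJ⟩ := hDEL ι n w A hl j hj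
      have h := ih w A' hl'
      push_cast
      nlinarith
    · push Not at hcol
      have hb : ∀ j < K (n + 1), 1 - p w A j ≤ 0.476 ∧
          ((j : ℝ) ≤ 0.28 * ((n + 1 : ℕ) : ℝ) → 1 - p w A j ≤ 0.381) := by
        intro j hj
        have hjn : j < n + 1 := lt_of_lt_of_le hj (K_le _)
        have h := hcol j hjn
        refine hCOL (n + 1) j (p w A j) (Nat.succ_pos _) hj (p_nonneg _ w A hl j)
          (p_le_one _ w A hl j) ?_
        push_cast
        have e : ((n : ℝ) + 1 - 1 - j) = (n : ℝ) - j := by ring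
        rw [e]
        exact h
      have hq := hCL (n + 1) (fun j => 1 - p w A j) (Nat.succ_pos _)
        (fun j => by have := p_le_one _ w A hl j; linarith)
        (fun j hj => (hb j hj).1) (fun j hj hj' => (hb j hj).2 hj')
      have hQ := hQD ι (n + 1) w A (Nat.succ_pos _) hl
      have e1 := hID ι (n + 1) w A hl
      have e2 := hLIN ι (n + 1) w A hl
      have hS : ∑ i, w i * Ss (n + 1) (A i) ≤ c ^ 2 * ((n + 1 : ℕ) : ℝ) ^ 2
          - 0.6136 * ∑ y ∈ range (K (n + 1)), (1 - p w A y) * (c * ((n + 1 : ℕ) : ℝ) - y)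
          + C1 * ((n + 1 : ℕ) : ℝ) := by
        have h1 : ∑ i, w i * Ss (n + 1) (A i) ≤ ∑ i, w i * (c ^ 2 * ((n + 1 : ℕ) : ℝ) ^ 2
            - 0.6136 * ∑ y ∈ range (K (n + 1)) \ A i, (c * ((n + 1 : ℕ) : ℝ) - y)
            + C1 * ((n + 1 : ℕ) : ℝ)) :=
          Finset.sum_le_sum fun i _ =>
            mul_le_mul_of_nonneg_left (hSL (n + 1) (A i) (hl.sub i)) (hl.w0 i)
        have h2 : ∑ i, w i * (c ^ 2 * ((n + 1 : ℕ) : ℝ) ^ 2
            - 0.6136 * ∑ y ∈ range (K (n + 1)) \ A i, (c * ((n + 1 : ℕ) : ℝ) - y)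
            + C1 * ((n + 1 : ℕ) : ℝ))
            = (∑ i, w i) * (c ^ 2 * ((n + 1 : ℕ) : ℝ) ^ 2 + C1 * ((n + 1 : ℕ) : ℝ))
            - 0.6136 * ∑ i, w i * ∑ y ∈ range (K (n + 1)) \ A i,
                (c * ((n + 1 : ℕ) : ℝ) - y) := by
          rw [Finset.sum_mul, Finset.mul_sum, ← Finset.sum_sub_distrib]
          refine Finset.sum_congr rfl fun i _ => ?_
          ring
        rw [h2, hl.w1, sum_q_eq (n + 1) w A hl] at h1
        linarith
      have hcn := hCN (n + 1)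
      have hn1 : (0 : ℝ) ≤ ((n + 1 : ℕ) : ℝ) := Nat.cast_nonneg _
      rw [e1, e2]
      linarith

end Pool.Agent.Lib.MP_efec9b_co.Q
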