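import Pool.Agent.Lib.MP_efec9b_co.Q.Defs43
import Pool.Agent.Lib.MP_efec9b_co.QD84

/-!
MP_efec9b_co, row QD in the form of Defs43, from the one variable form of QD84 (helper51).
-/

namespace Pool.Agent.Lib.MP_efec9b_co.Q

open Finset

theorem rho_sum51 {n : ℕ} {A : Finset ℕ} (hA : A ⊆ range n) {j : ℕ} (hj : j ∈ A) :
    (∑ k ∈ Ioo j n, if j ∈ A ∧ k ∈ A then (1 : ℝ) else 0) = rho A j ∧
    (∑ k ∈ Ioo j n, if j ∈ A ∧ k ≤ j + rho A j then (1 : ℝ) else 0) = rho A j := by
  have hr : rho A j + j + 1 ≤ n := by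
    have h1 : A.filter (fun k => j < k) ⊆ Ioo j n := by
      intro k hk
      rw [mem_filter] at hk
      exact mem_Ioo.2 ⟨hk.2, mem_range.1 (hA hk.1)⟩
    have h2 := card_le_card h1
    rw [Nat.card_Ioo] at h2
    have h3 := mem_range.1 (hA hj)
    have h4 : rho A j ≤ n - j - 1 := h2
    omega
  constructor
  · rw [← sum_filter, sum_const, nsmul_eq_mul, mul_one]
    congr 1
    unfold rho
    congr 1
    ext k
    simp only [mem_filter, mem_Ioo]
    constructor
    · rintro ⟨h1, h2⟩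
      exact ⟨h2.2, h1.1⟩
    · rintro ⟨h1, h2⟩
      exact ⟨⟨h2, mem_range.1 (hA h1)⟩, hj, h1⟩
  · rw [← sum_filter, sum_const, nsmul_eq_mul, mul_one]
    congr 1
    have : (Ioo j n).filter (fun k => j ∈ A ∧ k ≤ j + rho A j) = Ioc j (j + rho A j) := by
      ext k
      simp only [mem_filter, mem_Ioo, mem_Ioc]
      constructor
      · rintro ⟨h1, h2⟩
        exact ⟨h1.1, h2.2⟩
      · rintro ⟨h1, h2⟩
        exact ⟨⟨h1, by omega⟩, hj, h2⟩
    rw [this, Nat.card_Ioc]
    omega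

theorem g_sum51 {ι : Type} [Fintype ι] {n : ℕ} {w : ι → ℝ} {A : ι → Finset ℕ}
    (h : IsLaw n w A) (j : ℕ) :
    ∑ k ∈ Ioo j n, g w A j k = ∑ k ∈ Ioo j n, G w A j k := by
  unfold g G
  rw [sum_comm, sum_comm (s := Ioo j n)]
  refine sum_congr rfl fun i _ => ?_
  have e1 : ∀ (Pr : ℕ → Prop) [DecidablePred Pr],
      (∑ k ∈ Ioo j n, if Pr k then w i else 0) = w i * ∑ k ∈ Ioo j n, if Pr k then (1 : ℝ) else 0 := by
    intro Pr _
    rw [mul_sum]
    refine sum_congr rfl fun k _ => ?_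
    split_ifs <;> simp
  rw [e1, e1]
  by_cases hj : j ∈ A i
  · obtain ⟨h1, h2⟩ := rho_sum51 (h.sub i) hj
    rw [h1, h2]
  · congr 1
    refine sum_congr rfl fun k _ => ?_
    rw [if_neg (fun h => hj h.1), if_neg (fun h => hj h.1)]

theorem shift51 (f : ℕ → ℝ) (y n : ℕ) :
    ∑ s ∈ range (n - 1 - y), f (y + 1 + s) = ∑ k ∈ Ioo y n, f k := by
  have : Ioo y n = Ico (y + 1) n := by
    ext k; simp only [mem_Ioo, mem_Ico]; omega
  rw [this, sum_Ico_eq_sum_range]
  have : n - (y + 1) = n - 1 - y := by omega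
  rw [this]

theorem qd51 : StQD := by
  intro ι _ n w A hn h
  have hc : c = Real.exp (-1) := rfl
  have hc0 : 0 < c := Real.exp_pos _
  have hc1 : c ≤ 1 := by rw [hc, Real.exp_le_one_iff]; norm_num
  have hnr : (0 : ℝ) < n := by exact_mod_cast hn
  have hK0 : 0 < K n := Nat.ceil_pos.2 (mul_pos hc0 hnr)
  have hKn : K n ≤ n := Nat.ceil_le.2 (by nlinarith)
  have he : (n : ℝ) ≤ Real.exp 1 * (K n : ℝ) := by
    have h1 : c * (n : ℝ) ≤ K n := Nat.le_ceil _
    have h2 : Real.exp 1 * c = 1 := by rw [hc, ← Real.exp_add]; norm_num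
    have h3 := mul_le_mul_of_nonneg_left h1 (Real.exp_pos 1).le
    have h4 : Real.exp 1 * (c * (n : ℝ)) = n := by rw [← mul_assoc, h2, one_mul]
    linarith
  have hp1 : ∀ y, p w A y ≤ 1 := fun y => by
    unfold p
    rw [← h.w1]
    refine sum_le_sum fun i _ => ?_
    split_ifs
    · exact le_rfl
    · exact h.w0 i
  have hP1 : ∀ y z, g w A y z ≤ p w A y := fun y z => by
    unfold g p
    refine sum_le_sum fun i _ => ?_
    have := h.w0 i
    by_cases h1 : y ∈ A i <;> by_cases h2 : z ∈ A i <;> simp [h1, h2, this]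
  have hP2 : ∀ y z, g w A y z ≤ p w A z := fun y z => by
    unfold g p
    refine sum_le_sum fun i _ => ?_
    have := h.w0 i
    by_cases h1 : y ∈ A i <;> by_cases h2 : z ∈ A i <;> simp [h1, h2, this]
  have hP3 : ∀ y z, p w A z - g w A y z ≤ 1 - p w A y := fun y z => by
    unfold g p
    rw [← h.w1, ← sum_sub_distrib, ← sum_sub_distrib]
    refine sum_le_sum fun i _ => ?_
    have := h.w0 i
    by_cases h1 : y ∈ A i <;> by_cases h2 : z ∈ A i <;> simp [h1, h2, this]
  have hG : ∀ y s, G w A y (y + 1 + s) ≤ p w A y := fun y s => by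
    unfold G p
    refine sum_le_sum fun i _ => ?_
    have := h.w0 i
    by_cases h1 : y ∈ A i
    · rw [if_pos h1]
      split_ifs
      · exact le_rfl
      · exact this
    · rw [if_neg h1, if_neg (fun h => h1 h.1)]
  have hX0 : ∀ y, ∑ k ∈ Ioo y n, (g w A y k - U n k) = ∑ k ∈ Ioo y n, (G w A y k - U n k) := by
    intro y
    rw [sum_sub_distrib, sum_sub_distrib, g_sum51 h y]
  have hX : ∀ y < n, ∑ Y ∈ Ioo y n, (g w A y Y - U n Y) =
      ∑ s ∈ range (n - 1 - y), (G w A y (y + 1 + s) - U n (y + 1 + s)) := by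
    intro y _
    rw [shift51 (fun k => G w A y k - U n k) y n]
    exact hX0 y
  have main := QD84.QD n (K n) hK0 hKn he (U n) (fun j hj => by unfold U; rw [if_pos hj])
    (p w A) (g w A) (fun y s => G w A y (y + 1 + s)) hp1 hP1 hP2 hP3 hG hX
  refine le_trans (le_of_eq ?_) main
  unfold Quad
  refine sum_congr rfl fun y _ => ?_
  rw [shift51 (fun k => (G w A y k - U n k) ^ 2) y n]
  have e1 : ∑ k ∈ Ioo y n, ((p w A y - U n y) * (g w A y k - U n k) - (g w A y k - U n k) ^ 2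
      + (p w A y - U n y) * (G w A y k - U n k) - (G w A y k - U n k) ^ 2) =
      (p w A y - U n y) * (∑ k ∈ Ioo y n, (g w A y k - U n k))
      - ∑ k ∈ Ioo y n, (g w A y k - U n k) ^ 2
      + (p w A y - U n y) * (∑ k ∈ Ioo y n, (G w A y k - U n k))
      - ∑ k ∈ Ioo y n, (G w A y k - U n k) ^ 2 := by
    rw [mul_sum, mul_sum, ← sum_sub_distrib, ← sum_add_distrib, ← sum_sub_distrib]
  rw [e1, ← hX0 y]
  ring

end Pool.Agent.Lib.MP_efec9b_co.Q
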