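import Mathlib
import Pool.Agent.Lib.MP_efec9b_co.QD84
import Pool.Agent.Lib.MP_efec9b_co.Q.Defs43

/-!
MP_efec9b_co, row QD of Defs43 (helper84).
-/

namespace Pool.Agent.Lib.MP_efec9b_co.Q

open Finset

section

open Pool.Agent.Lib.MP_efec9b_co.QD84

/-- one column `y` at or beyond the threshold -/
theorem colHi84 (n y : ℕ) (d : ℝ) (dP dG : ℕ → ℝ) (hy : y < n) :
    ∑ z ∈ Ioo y n, (d * dP z - dP z ^ 2 + d * dG z - dG z ^ 2) ≤
      ((n : ℝ) - 1 - y) / 2 * d ^ 2 := by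
  have h1 : ∑ z ∈ Ioo y n, (d * dP z - dP z ^ 2 + d * dG z - dG z ^ 2) ≤
      ∑ _z ∈ Ioo y n, d ^ 2 / 2 :=
    sum_le_sum fun z _ => by
      have a := pw1 d (dP z)
      have b := pw1 d (dG z)
      linarith
  rw [sum_const, Nat.card_Ioo, nsmul_eq_mul] at h1
  have e1 : ((n - y - 1 : ℕ) : ℝ) = (n : ℝ) - 1 - y := by
    have : n - y - 1 + y + 1 = n := by omega
    have h' : ((n - y - 1 + y + 1 : ℕ) : ℝ) = n := by exact_mod_cast this
    push_cast at h'
    linarith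
  rw [e1] at h1
  linarith

/-- one column `y` before the threshold `k` -/
theorem colLo84 (n k y : ℕ) (hy : y < k) (hkn : k ≤ n) (q : ℕ → ℝ) (D : ℕ → ℝ) (c : ℕ → ℝ)
    (hq0 : ∀ z, 0 ≤ q z)
    (dP dG : ℕ → ℝ)
    (hP1 : ∀ z ∈ Ioo y k, q y ≤ -dP z ∧ q z ≤ -dP z)
    (hP2 : ∀ z ∈ Ico k n, 0 ≤ D z - dP z ∧ D z - dP z ≤ q y)
    (hG : ∀ z ∈ Ioo y k, q y ≤ - dG z)
    (hc : ∀ z, 0 ≤ c z) :
    ∑ z ∈ Ioo y n, (-q y * dP z - dP z ^ 2 + -q y * dG z - dG z ^ 2) ≤
      ∑ z ∈ Ioo y k, (q y * q z - q z ^ 2) + ((n : ℝ) - k) / 2 * q y ^ 2 +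
      ∑ z ∈ Ico k n, (- (2 * c z - c z ^ 2) * D z ^ 2 + c z * |D z| * q y) := by
  have hsplit : Ioo y n = Ioo y k ∪ Ico k n := by
    ext z; simp only [mem_Ioo, mem_union, mem_Ico]; omega
  have hdisj : Disjoint (Ioo y k) (Ico k n) := by
    rw [disjoint_left]; intro z; simp only [mem_Ioo, mem_Ico]; omega
  have h1 : ∑ z ∈ Ioo y n, (-q y * dP z - dP z ^ 2 + -q y * dG z - dG z ^ 2) ≤
      ∑ z ∈ Ioo y k, (q y * q z - q z ^ 2) + ∑ z ∈ Ico k n,
        (q y ^ 2 / 2 + (- (2 * c z - c z ^ 2) * D z ^ 2 + c z * |D z| * q y)) := by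
    rw [hsplit, sum_union hdisj]
    refine add_le_add (sum_le_sum fun z hz => ?_) (sum_le_sum fun z hz => ?_)
    · have h := hP1 z hz
      have a := pw2 (q y) (-dP z) (q z) (hq0 z) h.1 h.2
      have h' := hG z hz
      have b := pw2 (q y) (-dG z) (q y) (hq0 y) h' h'
      nlinarith
    · have h := hP2 z hz
      have a := pw3 (q y) (D z) (D z - dP z) (c z) h.1 h.2 (hc z)
      have e : D z - (D z - dP z) = dP z := by ring
      rw [e] at a
      have b := pw1 (-q y) (dG z)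
      nlinarith
  rw [sum_add_distrib (s := Ico k n), sum_const, Nat.card_Ico, nsmul_eq_mul] at h1
  have hc' : ((n - k : ℕ) : ℝ) = (n : ℝ) - k := by
    rw [Nat.cast_sub hkn]
  rw [hc'] at h1
  linarith

theorem QDcore (n k : ℕ) (hk : 0 < k) (hkn : k ≤ n) (he : (n : ℝ) ≤ Real.exp 1 * k)
    (Uf : ℕ → ℝ) (hU : ∀ j < k, Uf j = 1)
    (p : ℕ → ℝ) (P G : ℕ → ℕ → ℝ)
    (hp1 : ∀ y, p y ≤ 1)
    (hP1 : ∀ y z, P y z ≤ p y) (hP2 : ∀ y z, P y z ≤ p z)
    (hP3 : ∀ y z, p z - P y z ≤ 1 - p y)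
    (hG : ∀ y s, G y s ≤ p y) :
    ∑ y ∈ range n, ∑ z ∈ Ioo y n, ((p y - Uf y) * (P y z - Uf z) - (P y z - Uf z) ^ 2
        + (p y - Uf y) * (G y z - Uf z) - (G y z - Uf z) ^ 2) ≤
      ∑ y ∈ range k, (((n : ℝ) - k) / 2 - y) * (1 - p y) ^ 2 +
      (1 / 2 + (5 * (k : ℝ) - n) / (4 * k)) * (∑ y ∈ range k, (1 - p y)) ^ 2 := by
  have hkr : (0 : ℝ) < k := by exact_mod_cast hk
  have e2 := Real.exp_one_lt_d9
  have h3 : (n : ℝ) < 3 * k := by nlinarith
  set q : ℕ → ℝ := fun y => 1 - p y with hq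
  set D : ℕ → ℝ := fun z => p z - Uf z with hD
  set b : ℕ → ℝ := fun z => ((n : ℝ) - 1 - z) / 2 with hb
  set c : ℕ → ℝ := fun z => max (b z / k) 0 with hc
  have hq0 : ∀ z, 0 ≤ q z := fun z => by simp only [hq]; linarith [hp1 z]
  set m : ℝ := ∑ y ∈ range k, q y with hm
  have hlo : ∀ y ∈ range k, ∑ z ∈ Ioo y n, ((p y - Uf y) * (P y z - Uf z) - (P y z - Uf z) ^ 2
        + (p y - Uf y) * (G y z - Uf z) - (G y z - Uf z) ^ 2) ≤
      ∑ z ∈ Ioo y k, (q y * q z - q z ^ 2) + ((n : ℝ) - k) / 2 * q y ^ 2 +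
      ∑ z ∈ Ico k n, (- (2 * c z - c z ^ 2) * D z ^ 2 + c z * |D z| * q y) := by
    intro y hy
    rw [mem_range] at hy
    have e : p y - Uf y = - q y := by simp only [hq]; rw [hU y hy]; ring
    rw [e]
    refine colLo84 n k y hy hkn q D c hq0 (fun z => P y z - Uf z)
      (fun z => G y z - Uf z) ?_ ?_ ?_ ?_
    · intro z hz
      have hz' := mem_Ioo.1 hz
      have := hU z hz'.2
      simp only [hq]
      rw [this]
      constructor
      · linarith [hP1 y z]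
      · linarith [hP2 y z]
    · intro z _
      simp only [hq, hD]
      constructor
      · linarith [hP2 y z]
      · linarith [hP3 y z]
    · intro z hz
      have hz' := mem_Ioo.1 hz
      simp only [hq]
      rw [hU z hz'.2]
      linarith [hG y z]
    · intro z
      exact le_max_right _ _
  have hhi : ∀ y ∈ Ico k n, ∑ z ∈ Ioo y n, ((p y - Uf y) * (P y z - Uf z) - (P y z - Uf z) ^ 2
        + (p y - Uf y) * (G y z - Uf z) - (G y z - Uf z) ^ 2) ≤ b y * D y ^ 2 := by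
    intro y hy
    have hy' := (mem_Ico.1 hy).2
    exact colHi84 n y (p y - Uf y) (fun z => P y z - Uf z) (fun z => G y z - Uf z) hy'
  rw [← Finset.sum_range_add_sum_Ico _ hkn]
  have H1 := sum_le_sum hlo
  have H2 := sum_le_sum hhi
  rw [sum_add_distrib, sum_add_distrib] at H1
  have H3 := tri k q
  have H4 : ∑ y ∈ range k, ∑ z ∈ Ico k n,
      (- (2 * c z - c z ^ 2) * D z ^ 2 + c z * |D z| * q y) =
      ∑ z ∈ Ico k n, (- (2 * c z - c z ^ 2) * k * D z ^ 2 + c z * |D z| * m) := by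
    rw [sum_comm]
    refine sum_congr rfl fun z _ => ?_
    rw [sum_add_distrib, sum_const, card_range, nsmul_eq_mul, ← mul_sum]
    ring
  have H5 : ∑ z ∈ Ico k n, (- (2 * c z - c z ^ 2) * k * D z ^ 2 + c z * |D z| * m) +
      ∑ z ∈ Ico k n, b z * D z ^ 2 ≤
      ∑ z ∈ Ico k n, (((n : ℝ) - 1 - z) / 2) / (4 * k * (k - ((n : ℝ) - 1 - z) / 2)) * m ^ 2 := by
    rw [← sum_add_distrib]
    refine sum_le_sum fun z hz => ?_
    have hz' := mem_Ico.1 hz
    have hz1 : (k : ℝ) ≤ z := by exact_mod_cast hz'.1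
    have hz2 : (z : ℝ) + 1 ≤ n := by exact_mod_cast hz'.2
    have hb0 : 0 ≤ b z := by simp only [hb]; linarith
    have hbk : b z < k := by simp only [hb]; linarith
    have hcz : c z = b z / k := max_eq_left (div_nonneg hb0 hkr.le)
    change _ ≤ b z / (4 * k * (k - b z)) * m ^ 2
    rw [hcz]
    have hDD : |D z| ^ 2 = D z ^ 2 := sq_abs _
    have hpos : 0 < 4 * (k : ℝ) * (k - b z) := by
      have : 0 < (k : ℝ) - b z := by linarith
      positivity
    have hne : (k : ℝ) - b z ≠ 0 := by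
      have : 0 < (k : ℝ) - b z := by linarith
      exact this.ne'
    have key : b z / (4 * k * (k - b z)) * m ^ 2 -
        (-(2 * (b z / k) - (b z / k) ^ 2) * k * D z ^ 2 + b z / k * |D z| * m + b z * D z ^ 2) =
        b z / (4 * k * (k - b z)) * (m - 2 * (k - b z) * |D z|) ^ 2 := by
      rw [← hDD]
      field_simp
      ring
    have : 0 ≤ b z / (4 * k * (k - b z)) * (m - 2 * (k - b z) * |D z|) ^ 2 :=
      mul_nonneg (div_nonneg hb0 hpos.le) (sq_nonneg _)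
    linarith
  have H6 := zsum n k hk hkn he
  rw [← sum_mul] at H5
  have H7 : (∑ z ∈ Ico k n, (((n : ℝ) - 1 - z) / 2) / (4 * k * (k - ((n : ℝ) - 1 - z) / 2))) *
      m ^ 2 ≤ (5 * (k : ℝ) - n) / (4 * k) * m ^ 2 :=
    mul_le_mul_of_nonneg_right H6 (sq_nonneg m)
  have H8 : ∑ y ∈ range k, (((n : ℝ) - k) / 2 - y) * (1 - p y) ^ 2 =
      ∑ y ∈ range k, ((n : ℝ) - k) / 2 * q y ^ 2 - ∑ y ∈ range k, (y : ℝ) * q y ^ 2 := by
    rw [← sum_sub_distrib]
    refine sum_congr rfl fun y _ => ?_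
    simp only [hq]
    ring
  rw [H8]
  rw [H4] at H1
  linarith

theorem rowQD84 : StQD := by
  intro ι _ n w A hn hL
  have hnr : (0 : ℝ) < n := by exact_mod_cast hn
  have hcpos : 0 < c := Real.exp_pos _
  have hc1 : c ≤ 1 := by
    unfold c
    rw [Real.exp_le_one_iff]; norm_num
  have hK0 : 0 < K n := Nat.ceil_pos.2 (mul_pos hcpos hnr)
  have hKn : K n ≤ n := Nat.ceil_le.2 (by nlinarith)
  have he : (n : ℝ) ≤ Real.exp 1 * K n := by
    have h1 : c * n ≤ K n := Nat.le_ceil _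
    have h2 : Real.exp 1 * c = 1 := by
      unfold c; rw [← Real.exp_add]; norm_num
    have h3 := mul_le_mul_of_nonneg_left h1 (Real.exp_pos 1).le
    rw [← mul_assoc, h2, one_mul] at h3
    exact h3
  have hle : ∀ (P Q : ι → Prop) [DecidablePred P] [DecidablePred Q], (∀ i, P i → Q i) →
      (∑ i, if P i then w i else 0) ≤ ∑ i, if Q i then w i else 0 := by
    intro P Q _ _ h
    refine sum_le_sum fun i _ => ?_
    by_cases hp : P i
    · rw [if_pos hp, if_pos (h i hp)]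
    · rw [if_neg hp]
      split_ifs
      · exact hL.w0 i
      · exact le_refl _
  refine QDcore n (K n) hK0 hKn he (U n) (fun j hj => by simp [U, hj]) (p w A) (g w A) (G w A)
    ?_ ?_ ?_ ?_ ?_
  · intro y
    rw [← hL.w1]
    refine sum_le_sum fun i _ => ?_
    split_ifs
    · exact le_refl _
    · exact hL.w0 i
  · intro y z
    exact hle _ _ fun i h => h.1
  · intro y z
    exact hle _ _ fun i h => h.2
  · intro y z
    rw [← hL.w1]
    simp only [p, g]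
    rw [← sum_sub_distrib, ← sum_sub_distrib]
    refine sum_le_sum fun i _ => ?_
    have := hL.w0 i
    by_cases h1 : y ∈ A i <;> by_cases h2 : z ∈ A i <;> simp [h1, h2, this]
  · intro y z
    exact hle _ _ fun i h => h.1

end

end Pool.Agent.Lib.MP_efec9b_co.Q
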