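import Pool.Agent.Lib.MP_efec9b_co.Q.Defs43

/-! Row QD: the bound of the quadratic part. -/

namespace Pool.Agent.Lib.MP_efec9b_co.Q

open Finset

variable {ι : Type} [Fintype ι]

section basics

variable {n : ℕ} {w : ι → ℝ} {A : ι → Finset ℕ}

theorem p_nonneg90 (h : IsLaw n w A) (j : ℕ) : 0 ≤ p w A j :=
  sum_nonneg fun i _ => by split_ifs <;> simp [h.w0 i]

theorem p_le_one90 (h : IsLaw n w A) (j : ℕ) : p w A j ≤ 1 := by
  rw [← h.w1]
  exact sum_le_sum fun i _ => by split_ifs <;> simp [h.w0 i]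

theorem g_le_left90 (h : IsLaw n w A) (j k : ℕ) : g w A j k ≤ p w A j :=
  sum_le_sum fun i _ => by
    by_cases h1 : j ∈ A i <;> by_cases h2 : k ∈ A i <;> simp [h1, h2, h.w0 i]

theorem g_le_right90 (h : IsLaw n w A) (j k : ℕ) : g w A j k ≤ p w A k :=
  sum_le_sum fun i _ => by
    by_cases h1 : j ∈ A i <;> by_cases h2 : k ∈ A i <;> simp [h1, h2, h.w0 i]

theorem G_le90 (h : IsLaw n w A) (j k : ℕ) : G w A j k ≤ p w A j :=
  sum_le_sum fun i _ => by
    by_cases h1 : j ∈ A i <;> by_cases h2 : k ≤ j + rho (A i) j <;> simp [h1, h2, h.w0 i]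

/-- rows with `k` and without `j` -/
theorem g_gap90 (h : IsLaw n w A) (j k : ℕ) : p w A k - g w A j k ≤ 1 - p w A j := by
  have h1 : p w A k + p w A j ≤ 1 + g w A j k := by
    rw [← h.w1]
    unfold p g
    rw [← sum_add_distrib, ← sum_add_distrib]
    refine sum_le_sum fun i _ => ?_
    have h0 := h.w0 i
    by_cases h1 : j ∈ A i <;> by_cases h2 : k ∈ A i <;> simp [h1, h2, h0]
  linarith

end basics

theorem K_le90 (n : ℕ) : K n ≤ n := by
  unfold K
  apply Nat.ceil_le.2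
  have h1 : c ≤ 1 := by
    unfold c
    exact Real.exp_le_one_iff.2 (by norm_num)
  have : (0 : ℝ) ≤ n := Nat.cast_nonneg n
  nlinarith

theorem cn_le_K90 (n : ℕ) : c * n ≤ K n := Nat.le_ceil _

theorem c_lo90 : 0.3678 < c := by
  unfold c
  have := Real.exp_one_lt_d9
  rw [Real.exp_neg, lt_inv_comm₀ (by norm_num) (Real.exp_pos 1)]
  norm_num
  linarith

/-- harmonic sums -/
theorem harm90 (a : ℕ) (ha : 1 ≤ a) (m : ℕ) :
    ∑ i ∈ range m, (1 : ℝ) / ((a : ℝ) + 1 + i) ≤ Real.log (((a : ℝ) + m) / a) := by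
  induction m with
  | zero => simp [div_self (by positivity : (a : ℝ) ≠ 0)]
  | succ m ih =>
    rw [sum_range_succ]
    have ha' : (0 : ℝ) < a := by exact_mod_cast ha
    have hm : (0 : ℝ) ≤ m := Nat.cast_nonneg m
    have h1 : (1 : ℝ) / ((a : ℝ) + 1 + m) ≤
        Real.log (((a : ℝ) + m + 1) / (a + m)) := by
      have h2 := Real.one_sub_inv_le_log_of_pos
        (x := ((a : ℝ) + m + 1) / (a + m)) (by positivity)
      have h3 : 1 - (((a : ℝ) + m + 1) / (a + m))⁻¹ = 1 / ((a : ℝ) + 1 + m) := by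
        field_simp
        ring
      rw [h3] at h2
      exact h2
    have h4 : Real.log (((a : ℝ) + (m + 1 : ℕ)) / a)
        = Real.log (((a : ℝ) + m) / a) + Real.log (((a : ℝ) + m + 1) / (a + m)) := by
      rw [← Real.log_mul (by positivity) (by positivity)]
      congr 1
      push_cast
      field_simp
      ring
    rw [h4]
    linarith

theorem key90 {n : ℕ} (hn : 0 < n) : n < 3 * K n ∧
    2 * (K n : ℝ) ≤ Real.exp 2 * (3 * (K n : ℝ) - n) := by
  have h1 := cn_le_K90 n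
  have hc := c_lo90
  have hn' : (0 : ℝ) < n := by exact_mod_cast hn
  constructor
  · have : (n : ℝ) < 3 * K n := by nlinarith
    exact_mod_cast this
  · have he : Real.exp 2 = Real.exp 1 * Real.exp 1 := by
      rw [← Real.exp_add]
      norm_num
    have h2 := Real.exp_one_gt_d9
    have h3 := Real.exp_one_lt_d9
    have h4 : (n : ℝ) ≤ Real.exp 1 * K n := by
      have : Real.exp 1 * (c * n) ≤ Real.exp 1 * K n :=
        mul_le_mul_of_nonneg_left h1 (Real.exp_pos 1).le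
      have h5 : Real.exp 1 * (c * n) = n := by
        unfold c
        rw [Real.exp_neg]
        field_simp
      linarith
    have hK : (0 : ℝ) < K n := by nlinarith
    rw [he]
    -- e^2 n <= e^2 * e K <= (3 e^2 - 2) K
    have h6 : Real.exp 1 * Real.exp 1 * n ≤ Real.exp 1 * Real.exp 1 * (Real.exp 1 * K n) :=
      mul_le_mul_of_nonneg_left h4 (by positivity)
    have h7 : Real.exp 1 * Real.exp 1 * Real.exp 1 + 2 ≤ 3 * (Real.exp 1 * Real.exp 1) := by
      set x := Real.exp 1 with hx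
      have : x ≤ 2.7182818286 := h3.le
      have : 2.7182818283 ≤ x := h2.le
      nlinarith [mul_nonneg (sub_nonneg.2 h2.le) (sub_nonneg.2 h3.le),
        mul_nonneg (mul_nonneg (sub_nonneg.2 h2.le) (sub_nonneg.2 h3.le)) (Real.exp_pos 1).le]
    nlinarith

/-- the sum over the columns after `K` -/
theorem recip90 {n : ℕ} (hn : 0 < n) :
    ∑ k ∈ Ico (K n) n, (((n : ℝ) - 1 - k) / 2) /
        (4 * (K n : ℝ) * ((K n : ℝ) - ((n : ℝ) - 1 - k) / 2))
      ≤ (5 * (K n : ℝ) - n) / (4 * K n) := by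
  obtain ⟨h1, h2⟩ := key90 hn
  have hKn := K_le90 n
  have hK : (0 : ℝ) < K n := by
    have : 0 < K n := by omega
    exact_mod_cast this
  have h3 : (n : ℝ) < 3 * K n := by exact_mod_cast h1
  have hKn' : (K n : ℝ) ≤ n := by exact_mod_cast hKn
  have ha : 1 ≤ 3 * K n - n := by omega
  have hcast : ((3 * K n - n : ℕ) : ℝ) = 3 * (K n : ℝ) - n := by
    rw [Nat.cast_sub (by omega)]
    push_cast
    ring
  have hh := harm90 (3 * K n - n) ha (n - K n)
  rw [hcast, Nat.cast_sub hKn] at hh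
  have h4 : Real.log ((3 * (K n : ℝ) - n + ((n : ℝ) - K n)) / (3 * (K n : ℝ) - n)) ≤ 2 := by
    rw [Real.log_le_iff_le_exp (by apply div_pos <;> linarith)]
    rw [div_le_iff₀ (by linarith)]
    linarith
  have h5 : ∑ k ∈ Ico (K n) n, (((n : ℝ) - 1 - k) / 2) /
        (4 * (K n : ℝ) * ((K n : ℝ) - ((n : ℝ) - 1 - k) / 2))
      = ∑ i ∈ range (n - K n), ((1 / 2) * (1 / (3 * (K n : ℝ) - n + 1 + i)) - 1 / (4 * K n)) := by
    rw [Finset.sum_Ico_eq_sum_range]
    apply Finset.sum_congr rfl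
    intro i _
    have hi : (0 : ℝ) ≤ i := Nat.cast_nonneg i
    obtain ⟨x, hx⟩ : ∃ x : ℝ, x = 3 * (K n : ℝ) - n + 1 + i := ⟨_, rfl⟩
    have e1 : x ≠ 0 := by
      have : (0 : ℝ) < x := by rw [hx]; linarith
      exact this.ne'
    have e2 : ((K n : ℝ) - ((n : ℝ) - 1 - ((K n + i : ℕ) : ℝ)) / 2) = x / 2 := by
      rw [hx]
      push_cast
      ring
    have e3 : ((n : ℝ) - 1 - ((K n + i : ℕ) : ℝ)) / 2 = (2 * (K n : ℝ) - x) / 2 := by
      rw [hx]
      push_cast
      ring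
    rw [e2, e3, ← hx]
    have e4 : (K n : ℝ) ≠ 0 := hK.ne'
    field_simp
    ring
  rw [h5, Finset.sum_sub_distrib, ← Finset.mul_sum, Finset.sum_const, card_range, nsmul_eq_mul,
    Nat.cast_sub hKn]
  have h6 : ∑ i ∈ range (n - K n), (1 : ℝ) / (3 * (K n : ℝ) - n + 1 + i) ≤ 2 := hh.trans h4
  have h7 : (5 * (K n : ℝ) - n) / (4 * K n)
      = (1 / 2) * 2 - ((n : ℝ) - K n) * (1 / (4 * K n)) := by
    field_simp
    ring
  rw [h7]
  linarith

/-- one column after `K` -/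
theorem column90 (k : ℕ) (hk : 0 < k) (q e : ℕ → ℝ) (hq : ∀ j, |e j| ≤ q j) (D b : ℝ)
    (hb0 : 0 ≤ b) (hb : b < k) :
    ∑ j ∈ range k, (-D ^ 2 + D * e j + (q j ^ 2 - e j ^ 2) / 4 + q j ^ 2 / 4) + b * D ^ 2
      ≤ (1 / 2) * ∑ j ∈ range k, q j ^ 2
        + (∑ j ∈ range k, q j) ^ 2 * (b / (4 * (k : ℝ) * ((k : ℝ) - b))) := by
  have hk' : (0 : ℝ) < k := by exact_mod_cast hk
  have hkb : 0 < (k : ℝ) - b := by linarith
  set E := ∑ j ∈ range k, e j with hE
  set m := ∑ j ∈ range k, q j with hm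
  have h1 : ∑ j ∈ range k, (-D ^ 2 + D * e j + (q j ^ 2 - e j ^ 2) / 4 + q j ^ 2 / 4)
      = -(k : ℝ) * D ^ 2 + D * E - (1 / 4) * ∑ j ∈ range k, e j ^ 2
        + (1 / 2) * ∑ j ∈ range k, q j ^ 2 := by
    rw [hE, Finset.mul_sum, Finset.mul_sum, Finset.mul_sum]
    have : -(k : ℝ) * D ^ 2 = ∑ j ∈ range k, -D ^ 2 := by
      rw [Finset.sum_const, card_range, nsmul_eq_mul]
      ring
    rw [this, ← Finset.sum_add_distrib, ← Finset.sum_sub_distrib, ← Finset.sum_add_distrib]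
    apply Finset.sum_congr rfl
    intro j _
    ring
  have h2 : E ^ 2 ≤ k * ∑ j ∈ range k, e j ^ 2 := by
    have := sq_sum_le_card_mul_sum_sq (s := range k) (f := e)
    rwa [card_range] at this
  have h3 : |E| ≤ m := by
    refine (Finset.abs_sum_le_sum_abs _ _).trans ?_
    exact Finset.sum_le_sum fun j _ => hq j
  have h4 : E ^ 2 ≤ m ^ 2 := by
    rw [← sq_abs E]
    exact pow_le_pow_left₀ (abs_nonneg _) h3 2
  have h5 : E ^ 2 / k ≤ ∑ j ∈ range k, e j ^ 2 := by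
    rw [div_le_iff₀ hk']
    linarith
  have h6 : D * E - ((k : ℝ) - b) * D ^ 2 ≤ E ^ 2 / (4 * ((k : ℝ) - b)) := by
    rw [le_div_iff₀ (by positivity)]
    nlinarith [sq_nonneg (2 * ((k : ℝ) - b) * D - E)]
  have h7 : E ^ 2 / (4 * ((k : ℝ) - b)) - (1 / 4) * (E ^ 2 / k)
      = E ^ 2 * (b / (4 * (k : ℝ) * ((k : ℝ) - b))) := by
    field_simp
    ring
  have h8 : E ^ 2 * (b / (4 * (k : ℝ) * ((k : ℝ) - b)))
      ≤ m ^ 2 * (b / (4 * (k : ℝ) * ((k : ℝ) - b))) :=
    mul_le_mul_of_nonneg_right h4 (by positivity)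
  rw [h1]
  nlinarith

/-- the pairs below `K` -/
theorem lower90 (k : ℕ) (q : ℕ → ℝ) :
    ∑ j ∈ range k, ∑ l ∈ Ioo j k, (q j * q l - q l ^ 2)
      ≤ (1 / 2) * (∑ j ∈ range k, q j) ^ 2 - ∑ j ∈ range k, (j : ℝ) * q j ^ 2 := by
  induction k with
  | zero => simp
  | succ k ih =>
    have h1 : ∀ j ∈ range k, ∑ l ∈ Ioo j (k + 1), (q j * q l - q l ^ 2)
        = ∑ l ∈ Ioo j k, (q j * q l - q l ^ 2) + (q j * q k - q k ^ 2) := by
      intro j hj
      have hj' := mem_range.1 hj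
      have : Ioo j (k + 1) = insert k (Ioo j k) := by
        ext l
        simp only [mem_Ioo, mem_insert]
        omega
      rw [this, Finset.sum_insert (by simp)]
      ring
    rw [sum_range_succ, Finset.sum_congr rfl h1, Finset.sum_add_distrib]
    have h2 : Ioo k (k + 1) = ∅ := by
      ext l
      simp
    rw [h2, Finset.sum_empty, Finset.sum_sub_distrib, ← Finset.sum_mul, Finset.sum_const,
      card_range, nsmul_eq_mul, sum_range_succ, sum_range_succ]
    nlinarith [sq_nonneg (q k)]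

theorem U_nonneg90 (n k : ℕ) : 0 ≤ U n k := by
  unfold U
  split_ifs
  · norm_num
  · have : 0 ≤ c := (Real.exp_pos _).le
    positivity

theorem qd90 : StQD := by
  intro ι _ n w A hn h
  obtain ⟨h3, _⟩ := key90 hn
  have hKn := K_le90 n
  have hK0 : 0 < K n := by omega
  have hKn' : (K n : ℝ) ≤ n := by exact_mod_cast hKn
  have h3' : (n : ℝ) < 3 * K n := by exact_mod_cast h3
  set q : ℕ → ℝ := fun j => 1 - p w A j with hq
  have q0 : ∀ j, 0 ≤ q j := fun j => by
    have := p_le_one90 h j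
    simp only [hq]
    linarith
  set T : ℕ → ℕ → ℝ := fun j k =>
    (p w A j - U n j) * (g w A j k - U n k) - (g w A j k - U n k) ^ 2
      + (p w A j - U n j) * (G w A j k - U n k) - (G w A j k - U n k) ^ 2 with hT
  have hsplit : Quad n w A = ∑ j ∈ range (K n), ∑ k ∈ Ioo j (K n), T j k
      + ∑ k ∈ Ico (K n) n, ∑ j ∈ range (K n), T j k
      + ∑ j ∈ Ico (K n) n, ∑ k ∈ Ioo j n, T j k := by
    have e1 : ∑ k ∈ Ico (K n) n, ∑ j ∈ range (K n), T j k
        = ∑ j ∈ range (K n), ∑ k ∈ Ico (K n) n, T j k := Finset.sum_comm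
    have e2 : Quad n w A = ∑ j ∈ range n, ∑ k ∈ Ioo j n, T j k := rfl
    rw [e1, e2, ← Finset.sum_add_distrib, ← Finset.sum_range_add_sum_Ico _ hKn]
    congr 1
    apply Finset.sum_congr rfl
    intro j hj
    have hj' := mem_range.1 hj
    rw [← Finset.sum_union]
    · congr 1
      ext k
      simp only [mem_Ioo, mem_union, mem_Ico]
      omega
    · rw [Finset.disjoint_left]
      intro k hk hk'
      simp only [mem_Ioo, mem_Ico] at hk hk'
      omega
  -- part 1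
  have b1 : ∑ j ∈ range (K n), ∑ k ∈ Ioo j (K n), T j k
      ≤ (1 / 2) * (∑ j ∈ range (K n), q j) ^ 2 - ∑ j ∈ range (K n), (j : ℝ) * q j ^ 2 := by
    refine le_trans ?_ (lower90 (K n) q)
    apply Finset.sum_le_sum
    intro j hj
    apply Finset.sum_le_sum
    intro k hk
    have hj' := mem_range.1 hj
    have hk' := mem_Ioo.1 hk
    have u1 : U n j = 1 := by simp [U, hj']
    have u2 : U n k = 1 := by simp [U, hk'.2]
    have g1 := g_le_left90 h j k
    have g2 := g_le_right90 h j k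
    have g3 := G_le90 h j k
    have q1 := q0 j
    have q2 := q0 k
    simp only [hT, hq, u1, u2] at *
    nlinarith [mul_nonneg (sub_nonneg.2 g3) (sub_nonneg.2 (g3.trans (p_le_one90 h j))),
      mul_nonneg (sub_nonneg.2 g2) (sub_nonneg.2 g1),
      mul_nonneg (sub_nonneg.2 g2) (sub_nonneg.2 (p_le_one90 h k))]
  -- part 3
  have b3 : ∑ j ∈ Ico (K n) n, ∑ k ∈ Ioo j n, T j k
      ≤ ∑ j ∈ Ico (K n) n, (((n : ℝ) - 1 - j) / 2) * (p w A j - U n j) ^ 2 := by
    apply Finset.sum_le_sum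
    intro j hj
    have hj' := mem_Ico.1 hj
    have e1 : ∑ k ∈ Ioo j n, T j k ≤ ∑ k ∈ Ioo j n, (p w A j - U n j) ^ 2 / 2 := by
      apply Finset.sum_le_sum
      intro k _
      simp only [hT]
      nlinarith [sq_nonneg ((p w A j - U n j) - 2 * (g w A j k - U n k)),
        sq_nonneg ((p w A j - U n j) - 2 * (G w A j k - U n k))]
    refine e1.trans (le_of_eq ?_)
    rw [Finset.sum_const, Nat.card_Ioo, nsmul_eq_mul, Nat.sub_sub, Nat.cast_sub (by omega)]
    push_cast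
    ring
  -- part 2
  have b2 : ∀ k ∈ Ico (K n) n, ∑ j ∈ range (K n), T j k
      + (((n : ℝ) - 1 - k) / 2) * (p w A k - U n k) ^ 2
      ≤ (1 / 2) * ∑ j ∈ range (K n), q j ^ 2 + (∑ j ∈ range (K n), q j) ^ 2 *
        ((((n : ℝ) - 1 - k) / 2) / (4 * (K n : ℝ) * ((K n : ℝ) - ((n : ℝ) - 1 - k) / 2))) := by
    intro k hk
    have hk' := mem_Ico.1 hk
    have k1 : (K n : ℝ) ≤ k := by exact_mod_cast hk'.1
    have k2 : (k : ℝ) + 1 ≤ n := by exact_mod_cast hk'.2
    set D := p w A k - U n k with hD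
    refine le_trans ?_ (column90 (K n) hK0 q
      (fun j => 2 * (p w A k - g w A j k) - q j) ?_ D (((n : ℝ) - 1 - k) / 2)
      (by linarith) (by linarith))
    · apply add_le_add _ le_rfl
      apply Finset.sum_le_sum
      intro j hj
      have hj' := mem_range.1 hj
      have u1 : U n j = 1 := by simp [U, hj']
      simp only [hT, hq, u1, hD]
      nlinarith [sq_nonneg ((1 - p w A j) + 2 * (G w A j k - U n k))]
    · intro j
      have g1 := g_gap90 h j k
      have g2 := g_le_right90 h j k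
      simp only [hq]
      rw [abs_le]
      constructor <;> linarith
  have b2' := Finset.sum_le_sum b2
  have m2 : ∑ k ∈ Ico (K n) n, (∑ j ∈ range (K n), q j) ^ 2 *
        ((((n : ℝ) - 1 - k) / 2) / (4 * (K n : ℝ) * ((K n : ℝ) - ((n : ℝ) - 1 - k) / 2)))
      = (∑ j ∈ range (K n), q j) ^ 2 * ∑ k ∈ Ico (K n) n,
        ((((n : ℝ) - 1 - k) / 2) / (4 * (K n : ℝ) * ((K n : ℝ) - ((n : ℝ) - 1 - k) / 2))) :=
    (Finset.mul_sum _ _ _).symm
  rw [Finset.sum_add_distrib, Finset.sum_add_distrib, m2, Finset.sum_const,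
    Nat.card_Ico, nsmul_eq_mul, Nat.cast_sub hKn] at b2'
  have hr := recip90 hn
  have hm : 0 ≤ (∑ j ∈ range (K n), q j) ^ 2 := sq_nonneg _
  have hr' := mul_le_mul_of_nonneg_left hr hm
  have fin1 : ∑ j ∈ range (K n), (((n : ℝ) - K n) / 2 - j) * (1 - p w A j) ^ 2
      = ((n : ℝ) - K n) * ((1 / 2) * ∑ j ∈ range (K n), q j ^ 2)
        - ∑ j ∈ range (K n), (j : ℝ) * q j ^ 2 := by
    rw [Finset.mul_sum, Finset.mul_sum, ← Finset.sum_sub_distrib]
    apply Finset.sum_congr rfl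
    intro j _
    simp only [hq]
    ring
  rw [hsplit, fin1]
  have fin2 : ∑ j ∈ range (K n), (1 - p w A j) = ∑ j ∈ range (K n), q j := rfl
  rw [fin2]
  have fin3 : (1 / 2 + (5 * (K n : ℝ) - n) / (4 * K n)) * (∑ j ∈ range (K n), q j) ^ 2
      = (1 / 2) * (∑ j ∈ range (K n), q j) ^ 2
        + (∑ j ∈ range (K n), q j) ^ 2 * ((5 * (K n : ℝ) - n) / (4 * K n)) := by ring
  rw [fin3]
  linarith

end Pool.Agent.Lib.MP_efec9b_co.Q
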