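import Pool.Agent.Lib.MP_efec9b_co.Q.Defs43

/-!
Row SL: first order bound with slack.
-/

set_option autoImplicit false

namespace Pool.Agent.Lib.MP_efec9b_co.Q

open Finset

namespace SL44

theorem c_pos : 0 < c := Real.exp_pos _

theorem c_lt_one : c < 1 := by
  unfold c
  rw [Real.exp_lt_one_iff]
  norm_num

/-- harmonic sums -/
theorem harm (a : ℕ) (ha : 0 < a) (b : ℕ) (hab : a ≤ b) :
    ∑ k ∈ Ico a b, (1 : ℝ) / k ≤ 1 / a - 1 / b + Real.log (b / a) := by
  induction b, hab using Nat.le_induction with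
  | base => simp
  | succ b hab ih =>
    rw [sum_Ico_succ_top hab]
    have ha' : (0 : ℝ) < a := by exact_mod_cast ha
    have hb' : (0 : ℝ) < b := lt_of_lt_of_le ha' (by exact_mod_cast hab)
    have h1 : (1 : ℝ) - (((b : ℝ) + 1) / b)⁻¹ ≤ Real.log (((b : ℝ) + 1) / b) :=
      Real.one_sub_inv_le_log_of_pos (by positivity)
    have h2 : (1 : ℝ) - (((b : ℝ) + 1) / b)⁻¹ = 1 / (b + 1) := by
      field_simp
      ring
    have h3 : Real.log (((b + 1 : ℕ) : ℝ) / a) = Real.log (b / a) + Real.log (((b : ℝ) + 1) / b) := by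
      rw [← Real.log_mul (by positivity) (by positivity)]
      congr 1
      push_cast
      field_simp
    rw [h3]
    rw [h2] at h1
    push_cast
    linarith

theorem two_log_le (v : ℝ) (hv : 1 ≤ v) : 2 * Real.log v ≤ v - 1 / v := by
  have h0 : 0 < v := by linarith
  have h1 : Real.log v ≤ Real.sinh (Real.log v) := Real.self_le_sinh_iff.2 (Real.log_nonneg hv)
  rw [Real.sinh_log h0] at h1
  rw [one_div]
  linarith

theorem key_log (v s : ℝ) (hv : 1 ≤ v) (hs0 : 0 ≤ s) (hs1 : s ≤ 1) :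
    0.6136 * (1 - s) ≤ v - s / v - 2 * Real.log v := by
  have h0 : 0 < v := by linarith
  have h1 := two_log_le v hv
  have h2 : Real.log v ≤ Real.log 2 + (v / 2 - 1) := by
    have h3 : Real.log (v / 2) ≤ v / 2 - 1 := Real.log_le_sub_one_of_pos (by positivity)
    rw [Real.log_div h0.ne' (by norm_num)] at h3
    linarith
  have h3 : Real.log 2 < 0.6931471808 := Real.log_two_lt_d9
  have h4 : (0.6136 : ℝ) ≤ v - 2 * Real.log v := by linarith
  have h5 : v - s / v - 2 * Real.log v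
      = (1 - s) * (v - 2 * Real.log v) + s * (v - 1 / v - 2 * Real.log v) := by
    field_simp
    ring
  rw [h5]
  have h6 : 0 ≤ s * (v - 1 / v - 2 * Real.log v) := mul_nonneg hs0 (by linarith)
  have h7 : (1 - s) * 0.6136 ≤ (1 - s) * (v - 2 * Real.log v) :=
    mul_le_mul_of_nonneg_left h4 (by linarith)
  linarith

theorem key_T (T b y : ℝ) (hT : 0 < T) (hTb : T ≤ b) (hy0 : 0 ≤ y) (hyT : y ≤ T) :
    0.6136 * (T - y) ≤ b - T * y / b - 2 * (T * Real.log (b / T)) := by
  have hb0 : 0 < b := lt_of_lt_of_le hT hTb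
  have h2 := key_log (b / T) (y / T) ((one_le_div hT).2 hTb) (by positivity)
    ((div_le_one hT).2 hyT)
  have h3 := mul_le_mul_of_nonneg_left h2 hT.le
  have h4 : T * (0.6136 * (1 - y / T)) = 0.6136 * (T - y) := by
    field_simp
  have h5 : T * (b / T - y / T / (b / T) - 2 * Real.log (b / T))
      = b - T * y / b - 2 * (T * Real.log (b / T)) := by
    have e1 : T * (b / T) = b := by field_simp
    have e2 : y / T / (b / T) = y / b := by field_simp
    rw [e2, mul_sub, mul_sub, e1]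
    ring
  rw [h4, h5] at h3
  exact h3

/-- Abel summation -/
theorem abel (u : ℕ → ℝ) (P : ℝ) (m M : ℕ) (h : m ≤ M) :
    ∑ r ∈ Ico m M, (u r - u (r + 1)) * (P - 2 * r)
      = u m * (P - 2 * m + 2) - u M * (P - 2 * M + 2) - 2 * ∑ r ∈ Ico m M, u r := by
  induction M, h using Nat.le_induction with
  | base => simp
  | succ M h ih =>
    rw [sum_Ico_succ_top h, sum_Ico_succ_top h, ih]
    push_cast
    ring

/-- tail sums of `U` -/
noncomputable def V (n t : ℕ) : ℝ := ∑ k ∈ Ico t n, U n k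

theorem V_sub (n t : ℕ) (h : t < n) : V n t - V n (t + 1) = U n t := by
  unfold V
  rw [sum_eq_sum_Ico_succ_bot h]
  ring

/-- the potential -/
noncomputable def Psi (n M m g : ℕ) : ℝ :=
  ∑ r ∈ Ico m M, U n (r + g) * ((M : ℝ) - 1 - 2 * r) + ((M : ℝ) - m) * V n (M + g)

theorem Psi_elem (n M m g : ℕ) (h : m < M) :
    Psi n M m g = U n (m + g) * ((M : ℝ) - 1 - 2 * m) + V n (M + g) + Psi n M (m + 1) g := by
  unfold Psi
  rw [sum_eq_sum_Ico_succ_bot h]
  push_cast
  ring

theorem Psi_end (n M g : ℕ) : Psi n M M g = 0 := by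
  unfold Psi
  simp

theorem Psi_hole (n M m g : ℕ) (h : m ≤ M) (hn : M + g < n) :
    Psi n M m g - Psi n M m (g + 1)
      = U n (m + g) * ((M : ℝ) + 1 - 2 * m) + U n (M + g) * (2 * M - 1 - m)
        - 2 * ∑ k ∈ Ico (m + g) (M + g), U n k := by
  have h1 := abel (fun r => U n (r + g)) ((M : ℝ) - 1) m M h
  have h2 : ∑ r ∈ Ico m M, U n (r + g) = ∑ k ∈ Ico (m + g) (M + g), U n k :=
    Finset.sum_Ico_add' (fun k => U n k) m M g
  have h3 := V_sub n (M + g) hn
  unfold Psi
  have h4 : ∑ r ∈ Ico m M, U n (r + g) * ((M : ℝ) - 1 - 2 * r)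
      - ∑ r ∈ Ico m M, U n (r + (g + 1)) * ((M : ℝ) - 1 - 2 * r)
      = ∑ r ∈ Ico m M, (U n (r + g) - U n (r + 1 + g)) * ((M : ℝ) - 1 - 2 * r) := by
    rw [← sum_sub_distrib]
    refine sum_congr rfl fun r _ => ?_
    rw [show r + (g + 1) = r + 1 + g by ring]
    ring
  have h5 : V n (M + (g + 1)) = V n (M + g) - U n (M + g) := by
    rw [show M + (g + 1) = M + g + 1 by ring]
    linarith
  rw [h5]
  rw [h1, h2] at h4
  linear_combination h4

theorem U_lt {n k : ℕ} (h : k < K n) : U n k = 1 := if_pos h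

theorem U_ge {n k : ℕ} (h : K n ≤ k) : U n k = c * n / k := if_neg (not_lt.2 h)

theorem T_le_K (n : ℕ) : c * (n : ℝ) ≤ K n := Nat.le_ceil _

theorem K_lt (n : ℕ) : (K n : ℝ) < c * n + 1 :=
  Nat.ceil_lt_add_one (mul_nonneg c_pos.le (Nat.cast_nonneg n))

theorem lt_K {n k : ℕ} : k < K n ↔ (k : ℝ) < c * n := Nat.lt_ceil

theorem K_le (n : ℕ) : K n ≤ n := by
  unfold K
  rw [Nat.ceil_le]
  have h1 : (0 : ℝ) ≤ n := Nat.cast_nonneg n
  nlinarith [c_lt_one]

theorem K_pos {n : ℕ} (hn : 0 < n) : 0 < K n := by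
  unfold K
  rw [Nat.ceil_pos]
  have h1 : (0 : ℝ) < n := by exact_mod_cast hn
  exact mul_pos c_pos h1

theorem U_anti {n y b : ℕ} (hyb : y ≤ b) (hn : 0 < n) : U n b ≤ U n y := by
  have hT : 0 < c * (n : ℝ) := mul_pos c_pos (by exact_mod_cast hn)
  have hK := K_pos hn
  rcases lt_or_ge b (K n) with hb | hb
  · rw [U_lt hb, U_lt (lt_of_le_of_lt hyb hb)]
  · rw [U_ge hb]
    have hb0 : (0 : ℝ) < b := by exact_mod_cast (lt_of_lt_of_le hK hb)
    rcases lt_or_ge y (K n) with hy | hy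
    · rw [U_lt hy, div_le_one hb0]
      exact (T_le_K n).trans (by exact_mod_cast hb)
    · rw [U_ge hy]
      have hy0 : (0 : ℝ) < y := by exact_mod_cast (lt_of_lt_of_le hK hy)
      have hyb' : (y : ℝ) ≤ b := by exact_mod_cast hyb
      exact div_le_div_of_nonneg_left hT.le hy0 hyb'

theorem harm2 (y : ℕ) (hy : 0 < y) (b : ℕ) (h : y ≤ b) :
    2 * ∑ k ∈ Ico y b, (1 : ℝ) / k ≤ ((b : ℝ) + 1 - 2 * y) / y + (2 * b - 1 - y) / b := by
  have hy' : (0 : ℝ) < y := by exact_mod_cast hy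
  induction b, h using Nat.le_induction with
  | base =>
    rw [Ico_self, sum_empty]
    apply le_of_eq
    field_simp
    ring
  | succ b h ih =>
    rw [sum_Ico_succ_top h, mul_add]
    have hb' : (0 : ℝ) < b := lt_of_lt_of_le hy' (by exact_mod_cast h)
    have h1 : ((b : ℝ) + 1 + 1 - 2 * y) / y + (2 * (b + 1) - 1 - y) / (b + 1)
        - (((b : ℝ) + 1 - 2 * y) / y + (2 * b - 1 - y) / b) - 2 * (1 / b)
        = (((b : ℝ) - y) ^ 2 + (b - y)) / (y * b * (b + 1)) := by
      field_simp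
      ring
    have h2 : 0 ≤ (((b : ℝ) - y) ^ 2 + (b - y)) / (y * b * (b + 1)) := by
      have h3 : (0 : ℝ) ≤ b - y := by
        have : (y : ℝ) ≤ b := by exact_mod_cast h
        linarith
      positivity
    push_cast
    linarith

theorem sum_U_ge (n a b : ℕ) (ha : K n ≤ a) :
    ∑ k ∈ Ico a b, U n k = c * n * ∑ k ∈ Ico a b, (1 : ℝ) / k := by
  rw [mul_sum]
  refine sum_congr rfl fun k hk => ?_
  rw [U_ge (ha.trans (mem_Ico.1 hk).1)]
  ring

theorem sum_U_lt (n a b : ℕ) (hab : a ≤ b) (hb : b ≤ K n) :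
    ∑ k ∈ Ico a b, U n k = b - a := by
  have : ∑ k ∈ Ico a b, U n k = ∑ k ∈ Ico a b, (1 : ℝ) :=
    sum_congr rfl fun k hk => U_lt (lt_of_lt_of_le (mem_Ico.1 hk).2 hb)
  rw [this, sum_const, Nat.card_Ico, nsmul_eq_mul, mul_one, Nat.cast_sub hab]

/-- `T` times the harmonic sum from `K` -/
theorem T_harm (n b : ℕ) (hn : 0 < n) (hb : K n ≤ b) :
    c * n * ∑ k ∈ Ico (K n) b, (1 : ℝ) / k ≤ 1 + c * n * Real.log (b / (c * n)) := by
  have hT : 0 < c * (n : ℝ) := mul_pos c_pos (by exact_mod_cast hn)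
  have hK := K_pos hn
  have hK' : (0 : ℝ) < K n := by exact_mod_cast hK
  have hb' : (0 : ℝ) < b := lt_of_lt_of_le hK' (by exact_mod_cast hb)
  have h1 := harm (K n) hK b hb
  have h2 : Real.log ((b : ℝ) / K n) ≤ Real.log (b / (c * n)) :=
    Real.log_le_log (by positivity) (div_le_div_of_nonneg_left hb'.le hT (T_le_K n))
  have h3 : c * (n : ℝ) * (1 / K n) ≤ 1 := by
    rw [mul_one_div, div_le_one hK']
    exact T_le_K n
  have h4 : (0 : ℝ) ≤ 1 / b := by positivity
  calc c * n * ∑ k ∈ Ico (K n) b, (1 : ℝ) / k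
      ≤ c * n * (1 / K n + Real.log (b / (c * n))) := by
        apply mul_le_mul_of_nonneg_left _ hT.le
        linarith
    _ = c * n * (1 / K n) + c * n * Real.log (b / (c * n)) := by ring
    _ ≤ _ := by linarith

/-- a hole at or after `K` -/
theorem hole_ge (n M m g : ℕ) (hn0 : 0 < n) (h : m ≤ M) (hn : M + g < n) (hy : K n ≤ m + g) :
    0 ≤ Psi n M m g - Psi n M m (g + 1) := by
  have hT : 0 < c * (n : ℝ) := mul_pos c_pos (by exact_mod_cast hn0)
  have hK := K_pos hn0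
  rw [Psi_hole n M m g h hn, sum_U_ge n _ _ hy]
  have hyb : m + g ≤ M + g := by omega
  have h1 := harm2 (m + g) (lt_of_lt_of_le hK hy) (M + g) hyb
  have hU := U_anti hyb hn0
  have hUy := U_ge hy
  have hUb := U_ge (hy.trans hyb)
  have hg : (0 : ℝ) ≤ g := Nat.cast_nonneg g
  have h2 : U n (m + g) * ((M : ℝ) + 1 - 2 * m) + U n (M + g) * (2 * M - 1 - m)
      = (U n (m + g) - U n (M + g)) * g
        + c * n * ((((M + g : ℕ) : ℝ) + 1 - 2 * ((m + g : ℕ) : ℝ)) / ((m + g : ℕ) : ℝ)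
          + (2 * ((M + g : ℕ) : ℝ) - 1 - ((m + g : ℕ) : ℝ)) / ((M + g : ℕ) : ℝ)) := by
    have e1 : c * n * ((((M + g : ℕ) : ℝ) + 1 - 2 * ((m + g : ℕ) : ℝ)) / ((m + g : ℕ) : ℝ)
          + (2 * ((M + g : ℕ) : ℝ) - 1 - ((m + g : ℕ) : ℝ)) / ((M + g : ℕ) : ℝ))
        = (c * n / ((m + g : ℕ) : ℝ)) * (((M + g : ℕ) : ℝ) + 1 - 2 * ((m + g : ℕ) : ℝ))
          + (c * n / ((M + g : ℕ) : ℝ)) * (2 * ((M + g : ℕ) : ℝ) - 1 - ((m + g : ℕ) : ℝ)) := by
      ring
    rw [e1, ← hUy, ← hUb]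
    push_cast
    ring
  rw [h2]
  have h3 : 0 ≤ (U n (m + g) - U n (M + g)) * g := mul_nonneg (by linarith) hg
  have h4 := mul_le_mul_of_nonneg_left h1 hT.le
  linarith

/-- a hole before `K` -/
theorem hole_lt (n M m g : ℕ) (hn0 : 0 < n) (h : m ≤ M) (hn : M + g < n) (hy : m + g < K n) :
    0.6136 * (c * n - (m + g : ℕ)) ≤ (Psi n M m g - Psi n M m (g + 1)) + 4
      + 0.6136 * max 0 (c * n - M - g) := by
  have hT : 0 < c * (n : ℝ) := mul_pos c_pos (by exact_mod_cast hn0)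
  have hyT : ((m + g : ℕ) : ℝ) < c * n := lt_K.1 hy
  have hyb : m + g ≤ M + g := by omega
  have hmM : (m : ℝ) ≤ M := by exact_mod_cast h
  rw [Psi_hole n M m g h hn]
  rcases lt_or_ge (M + g) (K n) with hb | hb
  · rw [sum_U_lt n _ _ hyb hb.le, U_lt hy, U_lt hb]
    have h1 : c * n - M - g ≤ max 0 (c * n - M - g) := le_max_right _ _
    push_cast
    nlinarith
  · have hU := U_anti hyb hn0
    have hg : (0 : ℝ) ≤ g := Nat.cast_nonneg g
    have hs : ∑ k ∈ Ico (m + g) (M + g), U n k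
        = ((K n : ℝ) - (m + g : ℕ)) + c * n * ∑ k ∈ Ico (K n) (M + g), (1 : ℝ) / k := by
      rw [← sum_Ico_consecutive _ hy.le hb, sum_U_lt n _ _ hy.le le_rfl, sum_U_ge n _ _ le_rfl]
    rw [hs, U_lt hy, U_ge hb]
    rw [U_lt hy, U_ge hb] at hU
    have h1 := T_harm n (M + g) hn0 hb
    have hK1 := K_lt n
    have hTb : c * (n : ℝ) ≤ ((M + g : ℕ) : ℝ) := (T_le_K n).trans (by exact_mod_cast hb)
    have hb0 : (0 : ℝ) < ((M + g : ℕ) : ℝ) := lt_of_lt_of_le hT hTb
    have hy0 : (0 : ℝ) ≤ ((m + g : ℕ) : ℝ) := Nat.cast_nonneg _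
    have h3 := key_T (c * n) ((M + g : ℕ) : ℝ) ((m + g : ℕ) : ℝ) hT hTb hy0 hyT.le
    have h6 : (0 : ℝ) ≤ 0.6136 * max 0 (c * n - M - g) :=
      mul_nonneg (by norm_num) (le_max_left _ _)
    have h7 : c * (n : ℝ) / ((M + g : ℕ) : ℝ) ≤ 1 := (div_le_one hb0).2 hTb
    have h8 : c * (n : ℝ) / ((M + g : ℕ) : ℝ) * (2 * M - 1 - m)
        = 2 * (c * n) - c * n / ((M + g : ℕ) : ℝ) - c * n * ((m + g : ℕ) : ℝ) / ((M + g : ℕ) : ℝ)
          - c * n / ((M + g : ℕ) : ℝ) * g := by
      have e : (M : ℝ) = ((M + g : ℕ) : ℝ) - g := by push_cast; ring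
      have e' : (m : ℝ) = ((m + g : ℕ) : ℝ) - g := by push_cast; ring
      rw [e, e']
      field_simp
      ring
    have h9 : ((M : ℝ) + 1 - 2 * m) = ((M + g : ℕ) : ℝ) + 1 - 2 * ((m + g : ℕ) : ℝ) + g := by
      push_cast; ring
    rw [h8, one_mul, h9]
    nlinarith [mul_nonneg (sub_nonneg.2 hU) hg]

theorem lin_sum (P : ℝ) (N : ℕ) :
    ∑ r ∈ Ico 0 N, (P - 2 * (r : ℝ)) = N * P - N * (N - 1) := by
  rw [← range_eq_Ico]
  induction N with
  | zero => simp
  | succ N ih =>
    rw [sum_range_succ, ih]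
    push_cast
    ring

theorem log_one (n : ℕ) (hn : 0 < n) : Real.log ((n : ℝ) / (c * n)) = 1 := by
  have hn' : (0 : ℝ) < n := by exact_mod_cast hn
  have h1 : (n : ℝ) / (c * n) = c⁻¹ := by
    have := c_pos.ne'
    field_simp
  rw [h1, Real.log_inv]
  unfold c
  rw [Real.log_exp]
  norm_num

theorem Psi_start (n M : ℕ) (hn0 : 0 < n) (hM : M ≤ n) :
    Psi n M 0 0 ≤ (c * n) ^ 2 + 3 * n - (max 0 (c * n - M)) ^ 2 := by
  have hT : 0 < c * (n : ℝ) := mul_pos c_pos (by exact_mod_cast hn0)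
  have hTn : c * (n : ℝ) ≤ n := by
    have h1 : (0 : ℝ) ≤ n := Nat.cast_nonneg n
    nlinarith [c_lt_one]
  have hK := K_pos hn0
  have hKn := K_le n
  have hK1 := K_lt n
  have hM' : (M : ℝ) ≤ n := by exact_mod_cast hM
  have hM0 : (0 : ℝ) ≤ M := Nat.cast_nonneg M
  have hH := T_harm n n hn0 hKn
  rw [log_one n hn0, mul_one] at hH
  unfold Psi
  simp only [add_zero, Nat.cast_zero, sub_zero]
  rcases le_or_gt M (K n) with h | h
  · have h1 : ∑ r ∈ Ico 0 M, U n r * ((M : ℝ) - 1 - 2 * r) = 0 := by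
      have h2 : ∑ r ∈ Ico 0 M, U n r * ((M : ℝ) - 1 - 2 * r)
          = ∑ r ∈ Ico 0 M, ((M : ℝ) - 1 - 2 * (r : ℝ)) :=
        sum_congr rfl fun r hr => by
          rw [U_lt (lt_of_lt_of_le (mem_Ico.1 hr).2 h), one_mul]
      rw [h2, lin_sum]
      ring
    have h2 : V n M = ((K n : ℝ) - M) + c * n * ∑ k ∈ Ico (K n) n, (1 : ℝ) / k := by
      unfold V
      rw [← sum_Ico_consecutive _ h hKn, sum_U_lt n _ _ h le_rfl, sum_U_ge n _ _ le_rfl]
    rw [h1, h2]
    have h3 : (M : ℝ) * (((K n : ℝ) - M) + c * n * ∑ k ∈ Ico (K n) n, (1 : ℝ) / k)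
        ≤ M * (2 * (c * n) + 2 - M) := by
      apply mul_le_mul_of_nonneg_left _ hM0
      linarith
    rcases le_or_gt (M : ℝ) (c * n) with h4 | h4
    · rw [max_eq_right (by linarith)]
      nlinarith
    · rw [max_eq_left (by linarith)]
      nlinarith [sq_nonneg (c * (n : ℝ) - M)]
  · have hKM : (K n : ℝ) ≤ M := by exact_mod_cast h.le
    rw [max_eq_left (by linarith [T_le_K n])]
    have h1 : ∑ r ∈ Ico 0 M, U n r * ((M : ℝ) - 1 - 2 * r)
        = (K n * ((M : ℝ) - 1) - K n * (K n - 1))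
          + (c * n * ((M : ℝ) - 1) * ∑ k ∈ Ico (K n) M, (1 : ℝ) / k
            - 2 * (c * n) * (M - K n)) := by
      rw [← sum_Ico_consecutive _ (Nat.zero_le _) h.le]
      congr 1
      · rw [← lin_sum]
        exact sum_congr rfl fun r hr => by rw [U_lt (mem_Ico.1 hr).2, one_mul]
      · have h2 : ∑ r ∈ Ico (K n) M, U n r * ((M : ℝ) - 1 - 2 * r)
            = ∑ r ∈ Ico (K n) M, (c * n * ((M : ℝ) - 1) * (1 / (r : ℝ)) - 2 * (c * n)) := by
          refine sum_congr rfl fun r hr => ?_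
          have hr0 : (0 : ℝ) < r := by exact_mod_cast (lt_of_lt_of_le hK (mem_Ico.1 hr).1)
          rw [U_ge (mem_Ico.1 hr).1]
          field_simp
        rw [h2, sum_sub_distrib, ← mul_sum, sum_const, Nat.card_Ico, nsmul_eq_mul,
          Nat.cast_sub h.le]
        ring
    have h2 : V n M = c * n * ∑ k ∈ Ico M n, (1 : ℝ) / k := sum_U_ge n _ _ h.le
    have h3 : ∑ k ∈ Ico (K n) M, (1 : ℝ) / k + ∑ k ∈ Ico M n, (1 : ℝ) / k
        = ∑ k ∈ Ico (K n) n, (1 : ℝ) / k := sum_Ico_consecutive _ h.le hM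
    have h4 : (0 : ℝ) ≤ ∑ k ∈ Ico (K n) M, (1 : ℝ) / k := sum_nonneg fun k _ => by positivity
    rw [← h3] at hH
    rw [h1, h2]
    set a := ∑ k ∈ Ico (K n) M, (1 : ℝ) / k
    set b := ∑ k ∈ Ico M n, (1 : ℝ) / k
    have h5 : (M : ℝ) * (c * n * (a + b)) ≤ M * (1 + c * n) := mul_le_mul_of_nonneg_left hH hM0
    have h6 : 0 ≤ c * (n : ℝ) * a := mul_nonneg hT.le h4
    have h7 : (K n : ℝ) * (M - K n) ≤ (c * n + 1) * (M - K n) :=
      mul_le_mul_of_nonneg_right hK1.le (by linarith)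
    have h8 : c * (n : ℝ) * K n ≤ c * n * (c * n + 1) := mul_le_mul_of_nonneg_left hK1.le hT.le
    have hK0 : (0 : ℝ) ≤ K n := Nat.cast_nonneg _
    nlinarith

theorem al_succ (A : Finset ℕ) (y : ℕ) : al A (y + 1) = al A y + if y ∈ A then 1 else 0 := by
  unfold al
  by_cases hy : y ∈ A
  · rw [if_pos hy]
    have h1 : A.filter (fun k => k < y + 1) = insert y (A.filter (fun k => k < y)) := by
      ext k
      simp only [mem_filter, mem_insert]
      constructor
      · rintro ⟨h1, h2⟩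
        rcases Nat.lt_succ_iff_lt_or_eq.1 h2 with h3 | h3
        · exact Or.inr ⟨h1, h3⟩
        · exact Or.inl h3
      · rintro (rfl | ⟨h1, h2⟩)
        · exact ⟨hy, by omega⟩
        · exact ⟨h1, by omega⟩
    rw [h1, card_insert_of_notMem (by simp)]
  · rw [if_neg hy, add_zero]
    congr 1
    ext k
    simp only [mem_filter]
    constructor
    · rintro ⟨h1, h2⟩
      refine ⟨h1, ?_⟩
      rcases Nat.lt_succ_iff_lt_or_eq.1 h2 with h3 | h3
      · exact h3
      · exact absurd (h3 ▸ h1) hy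
    · rintro ⟨h1, h2⟩
      exact ⟨h1, by omega⟩

theorem al_le (A : Finset ℕ) (y : ℕ) : al A y ≤ y := by
  unfold al
  calc (A.filter (fun k => k < y)).card ≤ (range y).card :=
        card_le_card fun k hk => mem_range.2 (mem_filter.1 hk).2
    _ = y := card_range y

theorem al_le_card (A : Finset ℕ) (y : ℕ) : al A y ≤ A.card := card_filter_le _ _

theorem elem_card (A : Finset ℕ) (y : ℕ) (hy : y ∈ A) : rho A y + al A y + 1 = A.card := by
  have h1 := Finset.card_filter_add_card_filter_not (s := A) (fun k => k < y)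
  have h2 : A.filter (fun k => ¬ k < y) = insert y (A.filter (fun k => y < k)) := by
    ext k
    simp only [mem_filter, mem_insert]
    constructor
    · rintro ⟨h1, h2⟩
      rcases Nat.lt_or_ge y k with h3 | h3
      · exact Or.inr ⟨h1, h3⟩
      · exact Or.inl (by omega)
    · rintro (rfl | ⟨h1, h2⟩)
      · exact ⟨hy, by omega⟩
      · exact ⟨h1, by omega⟩
  rw [h2, card_insert_of_notMem (by simp)] at h1
  unfold rho al
  omega

theorem hole_card (n : ℕ) (A : Finset ℕ) (hA : A ⊆ range n) (y : ℕ) (hy : y ∉ A) (hyn : y < n) :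
    A.card + (y - al A y) < n := by
  have h1 := Finset.card_filter_add_card_filter_not (s := A) (fun k => k < y)
  have h2 : (A.filter (fun k => ¬ k < y)).card ≤ (Ioo y n).card := by
    apply card_le_card
    intro k hk
    obtain ⟨h3, h4⟩ := mem_filter.1 hk
    rw [mem_Ioo]
    refine ⟨?_, mem_range.1 (hA h3)⟩
    rcases Nat.lt_or_ge y k with h5 | h5
    · exact h5
    · exact absurd (show y ∈ A by rwa [show y = k by omega]) hy
  rw [Nat.card_Ioo] at h2
  have h3 := al_le A y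
  unfold al at h3 ⊢
  omega

theorem al_end (n : ℕ) (A : Finset ℕ) (hA : A ⊆ range n) : al A n = A.card := by
  unfold al
  rw [filter_true_of_mem fun k hk => mem_range.1 (hA hk)]

theorem sum_max (x : ℝ) (N : ℕ) :
    ∑ g ∈ range N, max 0 (x - g) ≤ ((max 0 (x + 1)) ^ 2 - (max 0 (x + 1 - N)) ^ 2) / 2 := by
  induction N with
  | zero => simp
  | succ N ih =>
    rw [sum_range_succ]
    have h1 : max 0 (x - N) ≤ ((max 0 (x + 1 - N)) ^ 2 - (max 0 (x - N)) ^ 2) / 2 := by
      rcases le_or_gt 0 (x - N) with h | h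
      · rw [max_eq_right h, max_eq_right (by linarith)]
        nlinarith
      · rw [max_eq_left h.le]
        have := sq_nonneg (max 0 (x + 1 - N))
        linarith
    have h2 : x + 1 - ((N + 1 : ℕ) : ℝ) = x - N := by push_cast; ring
    rw [h2]
    linarith

theorem walk (n : ℕ) (hn0 : 0 < n) (A : Finset ℕ) (hA : A ⊆ range n) (y : ℕ) (hy : y ≤ n) :
    ∑ k ∈ range y, (if k ∈ A then
        U n k * ((rho A k : ℝ) - (al A k : ℝ)) + W n (k + rho A k)
        else if k < K n then 0.6136 * (c * n - k) else 0)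
      + Psi n A.card (al A y) (y - al A y)
      ≤ Psi n A.card 0 0 + 4 * y
        + 0.6136 * ∑ g ∈ range (y - al A y), max 0 (c * n - A.card - g) := by
  induction y with
  | zero =>
    have h0 : al A 0 = 0 := by
      unfold al
      simp
    simp [h0]
  | succ y ih =>
    have hyn : y < n := hy
    have ih' := ih hyn.le
    have hal := al_le A y
    rw [sum_range_succ]
    by_cases hyA : y ∈ A
    · rw [if_pos hyA, al_succ, if_pos hyA]
      have h1 := elem_card A y hyA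
      have h2 : y + 1 - (al A y + 1) = y - al A y := by omega
      have h3 := Psi_elem n A.card (al A y) (y - al A y) (by omega)
      have h4 : al A y + (y - al A y) = y := by omega
      have h5 : W n (y + rho A y) = V n (A.card + (y - al A y)) := by
        unfold W V
        have h6 : A.card + (y - al A y) = y + rho A y + 1 := by omega
        rw [h6]
        rfl
      rw [h4] at h3
      have h7 : (rho A y : ℝ) = A.card - 1 - al A y := by
        have : ((rho A y + al A y + 1 : ℕ) : ℝ) = A.card := by exact_mod_cast h1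
        push_cast at this
        linarith
      rw [h2, h5, h7]
      push_cast
      have h8 : U n y * ((A.card : ℝ) - 1 - al A y - al A y)
          = U n y * ((A.card : ℝ) - 1 - 2 * al A y) := by ring
      rw [h8]
      linarith
    · rw [if_neg hyA, al_succ, if_neg hyA, add_zero]
      have h1 := hole_card n A hA y hyA hyn
      have h2 : y + 1 - al A y = (y - al A y) + 1 := by omega
      have h3 := al_le_card A y
      have h4 : al A y + (y - al A y) = y := by omega
      rw [h2, sum_range_succ]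
      rcases lt_or_ge y (K n) with h5 | h5
      · rw [if_pos h5]
        have h6 := hole_lt n A.card (al A y) (y - al A y) hn0 h3 h1 (by rw [h4]; exact h5)
        rw [h4] at h6
        push_cast at h6 ⊢
        linarith
      · rw [if_neg (by omega)]
        have h6 := hole_ge n A.card (al A y) (y - al A y) hn0 h3 h1 (by rw [h4]; exact h5)
        have h7 : (0 : ℝ) ≤ max 0 (c * n - A.card - ((y - al A y : ℕ) : ℝ)) := le_max_left _ _
        push_cast at h7 ⊢
        linarith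

theorem sl44 : StSL := by
  refine ⟨8, by norm_num, fun n A hA => ?_⟩
  rcases Nat.eq_zero_or_pos n with rfl | hn0
  · have h1 : A = ∅ := by simpa using hA
    subst h1
    have h2 : K 0 = 0 := by unfold K; simp
    simp [Ss, h2]
  have hn1 : (1 : ℝ) ≤ n := by exact_mod_cast hn0
  have hw := walk n hn0 A hA n le_rfl
  rw [al_end n A hA, Psi_end, add_zero] at hw
  have hc : A.card ≤ n := by
    calc A.card ≤ (range n).card := card_le_card hA
      _ = n := card_range n
  have hs := Psi_start n A.card hn0 hc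
  have hm := sum_max (c * n - A.card) (n - A.card)
  have hL : ∑ k ∈ range n, (if k ∈ A then
        U n k * ((rho A k : ℝ) - (al A k : ℝ)) + W n (k + rho A k)
        else if k < K n then 0.6136 * (c * n - k) else 0)
      = Ss n A + 0.6136 * ∑ y ∈ range (K n) \ A, (c * n - y) := by
    rw [sum_ite]
    congr 1
    · unfold Ss
      apply sum_congr _ fun _ _ => rfl
      ext k
      simp only [mem_filter]
      exact ⟨fun h => h.2, fun h => ⟨hA h, h⟩⟩
    · rw [mul_sum, ← sum_filter]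
      apply sum_congr _ fun _ _ => rfl
      ext k
      have := K_le n
      simp only [mem_filter, mem_sdiff, mem_range]
      constructor
      · rintro ⟨⟨h1, h2⟩, h3⟩
        exact ⟨h3, h2⟩
      · rintro ⟨h1, h2⟩
        exact ⟨⟨by omega, h2⟩, h1⟩
  rw [hL] at hw
  set X := max 0 (c * (n : ℝ) - A.card) with hX
  have hX0 : 0 ≤ X := le_max_left _ _
  have hX1 : max 0 (c * (n : ℝ) - A.card + 1) ≤ X + 1 := by
    apply max_le
    · linarith
    · have : c * (n : ℝ) - A.card ≤ X := le_max_right _ _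
      linarith
  have hX2 : (0 : ℝ) ≤ max 0 (c * (n : ℝ) - A.card + 1) := le_max_left _ _
  have hX3 : (max 0 (c * (n : ℝ) - A.card + 1)) ^ 2 ≤ (X + 1) ^ 2 :=
    pow_le_pow_left₀ hX2 hX1 2
  have hX4 := sq_nonneg (max 0 (c * (n : ℝ) - A.card + 1 - ((n - A.card : ℕ) : ℝ)))
  nlinarith [sq_nonneg (X - 1), sq_nonneg X]

end SL44

end Pool.Agent.Lib.MP_efec9b_co.Q
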